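import Mathlib

/-!
First fundamental theorem for gl in coordinates: an operator on the m-th tensor power of the
standard space of dimension d, given by its matrix G, which commutes with the diagonal action
of all matrices is a linear combination of permutations.
-/

set_option autoImplicit false

namespace Pool.Agent.Helper7

namespace FFTgl

open Matrix

variable {m d : ℕ}

/-- tensor product of matrices -/
noncomputable def T (Y : Fin m → Matrix (Fin d) (Fin d) ℂ) :
    Matrix (Fin m → Fin d) (Fin m → Fin d) ℂ := fun s t => ∏ r, Y r (s r) (t r)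

theorem T_mul (Y Z : Fin m → Matrix (Fin d) (Fin d) ℂ) : T Y * T Z = T (fun r => Y r * Z r) := by
  ext s t
  rw [Matrix.mul_apply]
  unfold T
  simp only [Matrix.mul_apply]
  rw [Finset.prod_univ_sum, Fintype.piFinset_univ]
  exact Finset.sum_congr rfl fun u _ => (Finset.prod_mul_distrib).symm

theorem T_one : T (1 : Fin m → Matrix (Fin d) (Fin d) ℂ) = 1 := by
  ext s t
  unfold T
  simp only [Pi.one_apply, Matrix.one_apply]
  rw [Finset.prod_boole]
  simp only [Finset.mem_univ, true_implies, funext_iff]

/-- diagonal action -/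
noncomputable def D (m : ℕ) {d : ℕ} (X : Matrix (Fin d) (Fin d) ℂ) :
    Matrix (Fin m → Fin d) (Fin m → Fin d) ℂ := ∑ r, T (Function.update 1 r X)

theorem sum_update (t : Fin m → Fin d) (r : Fin m) (ψ : (Fin m → Fin d) → ℂ)
    (h : ∀ u, (∃ r', r' ≠ r ∧ u r' ≠ t r') → ψ u = 0) :
    ∑ u, ψ u = ∑ k, ψ (Function.update t r k) := by
  classical
  rw [← Finset.sum_image (s := Finset.univ) (g := fun k => Function.update t r k) (f := ψ)]
  · symm
    apply Finset.sum_subset (Finset.subset_univ _)
    intro u _ hu
    apply h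
    by_contra hcon
    push Not at hcon
    apply hu
    rw [Finset.mem_image]
    refine ⟨u r, Finset.mem_univ _, ?_⟩
    funext r'
    by_cases hr : r' = r
    · subst hr
      rw [Function.update_self]
    · rw [Function.update_of_ne hr, hcon r' hr]
  · intro k _ k' _ hk
    have := congrFun hk r
    simpa using this

theorem T_update_apply (X : Matrix (Fin d) (Fin d) ℂ) (r : Fin m) (s t : Fin m → Fin d) :
    T (Function.update 1 r X) s t =
      X (s r) (t r) * ∏ r' ∈ Finset.univ.erase r, (if s r' = t r' then 1 else 0) := by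
  classical
  unfold T
  rw [← Finset.mul_prod_erase _ _ (Finset.mem_univ r), Function.update_self]
  congr 1
  refine Finset.prod_congr rfl fun r' hr' => ?_
  rw [Function.update_of_ne (Finset.ne_of_mem_erase hr'), Pi.one_apply, Matrix.one_apply]

theorem T_update_zero (X : Matrix (Fin d) (Fin d) ℂ) (r : Fin m) (s t : Fin m → Fin d)
    (h : ∃ r', r' ≠ r ∧ s r' ≠ t r') : T (Function.update 1 r X) s t = 0 := by
  classical
  obtain ⟨r', hr', hne⟩ := h
  rw [T_update_apply, Finset.prod_eq_zero (Finset.mem_erase.2 ⟨hr', Finset.mem_univ _⟩)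
    (if_neg hne), mul_zero]

theorem T_update_left (X : Matrix (Fin d) (Fin d) ℂ) (r : Fin m) (t : Fin m → Fin d)
    (k : Fin d) : T (Function.update 1 r X) (Function.update t r k) t = X k (t r) := by
  classical
  rw [T_update_apply, Function.update_self, Finset.prod_eq_one, mul_one]
  intro r' hr'
  rw [Function.update_of_ne (Finset.ne_of_mem_erase hr'), if_pos rfl]

theorem T_update_right (X : Matrix (Fin d) (Fin d) ℂ) (r : Fin m) (t : Fin m → Fin d)
    (k : Fin d) : T (Function.update 1 r X) t (Function.update t r k) = X (t r) k := by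
  classical
  rw [T_update_apply, Function.update_self, Finset.prod_eq_one, mul_one]
  intro r' hr'
  rw [Function.update_of_ne (Finset.ne_of_mem_erase hr'), if_pos rfl]

theorem mul_D (F : Matrix (Fin m → Fin d) (Fin m → Fin d) ℂ) (X : Matrix (Fin d) (Fin d) ℂ)
    (s t : Fin m → Fin d) :
    (F * D m X) s t = ∑ r, ∑ k, F s (Function.update t r k) * X k (t r) := by
  unfold D
  rw [Finset.mul_sum, Matrix.sum_apply]
  refine Finset.sum_congr rfl fun r _ => ?_
  rw [Matrix.mul_apply, sum_update t r]
  · exact Finset.sum_congr rfl fun k _ => by rw [T_update_left]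
  · intro u hu
    rw [T_update_zero X r u t hu, mul_zero]

theorem D_mul (F : Matrix (Fin m → Fin d) (Fin m → Fin d) ℂ) (X : Matrix (Fin d) (Fin d) ℂ)
    (s t : Fin m → Fin d) :
    (D m X * F) s t = ∑ r, ∑ k, X (s r) k * F (Function.update s r k) t := by
  unfold D
  rw [Finset.sum_mul, Matrix.sum_apply]
  refine Finset.sum_congr rfl fun r _ => ?_
  rw [Matrix.mul_apply, sum_update s r]
  · exact Finset.sum_congr rfl fun k _ => by rw [T_update_right]
  · intro u hu
    obtain ⟨r', hr', hne⟩ := hu
    rw [T_update_zero X r s u ⟨r', hr', hne.symm⟩, zero_mul]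

theorem commute_D (G : Matrix (Fin m → Fin d) (Fin m → Fin d) ℂ)
    (hG : ∀ (i j : Fin d) (s t : Fin m → Fin d),
      ∑ r, (if s r = j then G (Function.update s r i) t else 0) =
        ∑ r, (if t r = i then G s (Function.update t r j) else 0))
    (X : Matrix (Fin d) (Fin d) ℂ) : Commute G (D m X) := by
  unfold Commute SemiconjBy
  ext s t
  rw [mul_D, D_mul]
  have h1 : ∑ i, ∑ j, X j i * (∑ r, (if s r = j then G (Function.update s r i) t else 0)) =
      ∑ r, ∑ k, X (s r) k * G (Function.update s r k) t := by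
    simp only [Finset.mul_sum]
    rw [Finset.sum_congr rfl fun j _ => Finset.sum_comm, Finset.sum_comm]
    refine Finset.sum_congr rfl fun r _ => ?_
    refine Finset.sum_congr rfl fun k _ => ?_
    rw [Finset.sum_eq_single (s r)]
    · rw [if_pos rfl]
    · intro j _ hj
      rw [if_neg (Ne.symm hj), mul_zero]
    · intro h
      exact absurd (Finset.mem_univ _) h
  have h2 : ∑ i, ∑ j, X j i * (∑ r, (if t r = i then G s (Function.update t r j) else 0)) =
      ∑ r, ∑ k, G s (Function.update t r k) * X k (t r) := by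
    simp only [Finset.mul_sum]
    rw [Finset.sum_congr rfl fun j _ => Finset.sum_comm, Finset.sum_comm]
    refine Finset.sum_congr rfl fun r _ => ?_
    rw [Finset.sum_comm]
    refine Finset.sum_congr rfl fun k _ => ?_
    rw [Finset.sum_eq_single (t r)]
    · rw [if_pos rfl, mul_comm]
    · intro j _ hj
      rw [if_neg (Ne.symm hj), mul_zero]
    · intro h
      exact absurd (Finset.mem_univ _) h
  rw [← h1, ← h2]
  exact (Finset.sum_congr rfl fun i _ => Finset.sum_congr rfl fun j _ => by rw [hG]).symm

/-- sum over all injections -/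
noncomputable def P (m : ℕ) {d j : ℕ} (X : Fin j → Matrix (Fin d) (Fin d) ℂ) :
    Matrix (Fin m → Fin d) (Fin m → Fin d) ℂ :=
  ∑ e : Fin j ↪ Fin m, T (Function.extend e X 1)

theorem P_zero (X : Fin 0 → Matrix (Fin d) (Fin d) ℂ) : P m X = 1 := by
  unfold P
  rw [Fintype.sum_unique, ← T_one]
  congr 1
  funext r
  rw [Function.extend_apply']
  rintro ⟨i, _⟩
  exact i.elim0

theorem P_succ {j : ℕ} (X0 : Matrix (Fin d) (Fin d) ℂ) (X : Fin j → Matrix (Fin d) (Fin d) ℂ) :
    D m X0 * P m X = P m (Fin.cons X0 X : Fin (j + 1) → Matrix (Fin d) (Fin d) ℂ) +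
      ∑ i, P m (Function.update X i (X0 * X i)) := by
  classical
  have h1 : D m X0 * P m X = ∑ e : Fin j ↪ Fin m, ∑ r,
      T (fun r' => Function.update (1 : Fin m → Matrix (Fin d) (Fin d) ℂ) r X0 r' *
        Function.extend e X 1 r') := by
    unfold D P
    rw [Finset.sum_mul, Finset.sum_comm]
    refine Finset.sum_congr rfl fun r _ => ?_
    rw [Finset.mul_sum]
    exact Finset.sum_congr rfl fun e _ => T_mul _ _
  have h2 : P m (Fin.cons X0 X : Fin (j + 1) → Matrix (Fin d) (Fin d) ℂ) =
      ∑ e : Fin j ↪ Fin m, ∑ r : {i // i ∉ Set.range e},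
      T (fun r' => Function.update (1 : Fin m → Matrix (Fin d) (Fin d) ℂ) r.1 X0 r' *
        Function.extend e X 1 r') := by
    unfold P
    rw [← (Equiv.embeddingFinSucc j (Fin m)).symm.sum_comp, Fintype.sum_sigma]
    refine Finset.sum_congr rfl fun e _ => Finset.sum_congr rfl fun r _ => ?_
    congr 1
    funext r'
    set e' := (Equiv.embeddingFinSucc j (Fin m)).symm ⟨e, r⟩ with he'
    have he0 : e' 0 = r.1 := by
      have := congrFun (Equiv.coe_embeddingFinSucc_symm ⟨e, r⟩) 0
      exact this
    have hes : ∀ i : Fin j, e' i.succ = e i := by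
      intro i
      have := congrFun (Equiv.coe_embeddingFinSucc_symm ⟨e, r⟩) i.succ
      exact this
    by_cases hr0 : r' = r.1
    · subst hr0
      rw [Function.update_self, Function.extend_apply' (f := e) _ _ _ (fun h => r.2 h)]
      rw [← he0, e'.injective.extend_apply, Fin.cons_zero, Pi.one_apply, mul_one]
    · rw [Function.update_of_ne hr0, Pi.one_apply, one_mul]
      by_cases hr1 : ∃ i, e i = r'
      · obtain ⟨i, rfl⟩ := hr1
        rw [e.injective.extend_apply, ← hes, e'.injective.extend_apply, Fin.cons_succ]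
      · rw [Function.extend_apply' _ _ _ hr1, Function.extend_apply']
        rintro ⟨i, hi⟩
        refine Fin.cases (fun hi => ?_) (fun i hi => ?_) i hi
        · exact hr0 (hi.symm.trans he0)
        · exact hr1 ⟨i, (hes i).symm.trans hi⟩
  have h3 : ∑ i, P m (Function.update X i (X0 * X i)) =
      ∑ e : Fin j ↪ Fin m, ∑ r : {i // i ∈ Set.range e},
      T (fun r' => Function.update (1 : Fin m → Matrix (Fin d) (Fin d) ℂ) r.1 X0 r' *
        Function.extend e X 1 r') := by
    unfold P
    rw [Finset.sum_comm]
    refine Finset.sum_congr rfl fun e _ => ?_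
    rw [← (Equiv.ofInjective e e.injective).sum_comp]
    refine Finset.sum_congr rfl fun i _ => ?_
    congr 1
    funext r'
    have he : (Equiv.ofInjective e e.injective i).1 = e i := rfl
    rw [he]
    by_cases hr1 : ∃ i', e i' = r'
    · obtain ⟨i', rfl⟩ := hr1
      rw [e.injective.extend_apply, e.injective.extend_apply]
      by_cases hi : i' = i
      · subst hi
        rw [Function.update_self, Function.update_self]
      · rw [Function.update_of_ne hi, Function.update_of_ne (fun h => hi (e.injective h)),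
          Pi.one_apply, one_mul]
    · rw [Function.extend_apply' _ _ _ hr1, Function.extend_apply' _ _ _ hr1,
        Function.update_of_ne (fun h => hr1 ⟨i, h.symm⟩), Pi.one_apply, one_mul]
  rw [h1, h2, h3, ← Finset.sum_add_distrib]
  refine Finset.sum_congr rfl fun e _ => ?_
  rw [add_comm]
  refine (Fintype.sum_subtype_add_sum_subtype (fun i => i ∈ Set.range e)
    (fun r => T (fun r' => Function.update (1 : Fin m → Matrix (Fin d) (Fin d) ℂ) r X0 r' *
        Function.extend e X 1 r'))).symm.trans ?_
  refine congrArg₂ (· + ·) ?_ rfl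
  exact Finset.sum_congr (by ext; simp only [Finset.mem_univ]) fun _ _ => rfl

theorem commute_P (G : Matrix (Fin m → Fin d) (Fin m → Fin d) ℂ)
    (hG : ∀ X : Matrix (Fin d) (Fin d) ℂ, Commute G (D m X)) :
    ∀ (j : ℕ) (X : Fin j → Matrix (Fin d) (Fin d) ℂ), Commute G (P m X) := by
  intro j
  induction j with
  | zero =>
    intro X
    rw [P_zero]
    exact Commute.one_right _
  | succ j ih =>
    intro X
    have h1 := P_succ (m := m) (X 0) (Fin.tail X)
    rw [Fin.cons_self_tail] at h1
    rw [← sub_eq_iff_eq_add] at h1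
    rw [← h1]
    exact ((hG _).mul_right (ih _)).sub_right (Commute.sum_right _ _ _ fun i _ => ih _)

/-- orbit sums -/
theorem commute_orbit (G : Matrix (Fin m → Fin d) (Fin m → Fin d) ℂ)
    (hG : ∀ X : Matrix (Fin d) (Fin d) ℂ, Commute G (D m X))
    (X : Fin m → Matrix (Fin d) (Fin d) ℂ) :
    Commute G (∑ π : Equiv.Perm (Fin m), T (fun r => X (π r))) := by
  classical
  have h1 := commute_P G hG m X
  have h2 : P m X = ∑ π : Equiv.Perm (Fin m), T (fun r => X (π r)) := by
    unfold P
    rw [← (Equiv.embeddingEquivOfFinite (Fin m)).symm.sum_comp]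
    refine Fintype.sum_equiv (Equiv.inv (Equiv.Perm (Fin m))) _ _ fun π => ?_
    congr 1
    funext r
    have h3 : ((Equiv.embeddingEquivOfFinite (Fin m)).symm π) (π⁻¹ r) = r :=
      π.apply_symm_apply r
    conv_lhs => rw [← h3]
    rw [Function.Embedding.injective _ |>.extend_apply]
    rfl
  rwa [h2] at h1

/-- invariant matrices commute -/
theorem commute_inv (G : Matrix (Fin m → Fin d) (Fin m → Fin d) ℂ)
    (hG : ∀ X : Matrix (Fin d) (Fin d) ℂ, Commute G (D m X))
    (M : Matrix (Fin m → Fin d) (Fin m → Fin d) ℂ)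
    (hM : ∀ (π : Equiv.Perm (Fin m)) (s t : Fin m → Fin d), M (s ∘ π) (t ∘ π) = M s t) :
    Commute G M := by
  classical
  have h1 : ((Fintype.card (Equiv.Perm (Fin m)) : ℕ) : ℂ) • M =
      ∑ a : Fin m → Fin d, ∑ b : Fin m → Fin d, M a b •
        ∑ π : Equiv.Perm (Fin m), T (fun r => Matrix.single (a (π r)) (b (π r)) (1 : ℂ)) := by
    ext s t
    simp only [Matrix.smul_apply, Matrix.sum_apply, smul_eq_mul, Finset.mul_sum]
    rw [Finset.sum_congr rfl fun a _ => Finset.sum_comm, Finset.sum_comm]
    have h2 : ∀ π : Equiv.Perm (Fin m), ∑ a : Fin m → Fin d, ∑ b : Fin m → Fin d,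
        M a b * T (fun r => Matrix.single (a (π r)) (b (π r)) (1 : ℂ)) s t = M s t := by
      intro π
      rw [Finset.sum_eq_single (s ∘ π.symm)]
      · rw [Finset.sum_eq_single (t ∘ π.symm)]
        · rw [hM π.symm]
          unfold T
          rw [Finset.prod_eq_one, mul_one]
          intro r _
          simp
        · intro b _ hb
          unfold T
          obtain ⟨r, hr⟩ : ∃ r, b (π r) ≠ t r := by
            by_contra hcon
            push Not at hcon
            apply hb
            funext r
            have := hcon (π.symm r)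
            simpa using this
          rw [Finset.prod_eq_zero (Finset.mem_univ r), mul_zero]
          simp [hr]
        · intro h
          exact absurd (Finset.mem_univ _) h
      · intro a _ ha
        refine Finset.sum_eq_zero fun b _ => ?_
        unfold T
        obtain ⟨r, hr⟩ : ∃ r, a (π r) ≠ s r := by
          by_contra hcon
          push Not at hcon
          apply ha
          funext r
          have := hcon (π.symm r)
          simpa using this
        rw [Finset.prod_eq_zero (Finset.mem_univ r), mul_zero]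
        simp [hr]
      · intro h
        exact absurd (Finset.mem_univ _) h
    rw [Finset.sum_congr rfl fun π _ => h2 π, Finset.sum_const, Finset.card_univ, nsmul_eq_mul]
  have h3 : Commute G (((Fintype.card (Equiv.Perm (Fin m)) : ℕ) : ℂ) • M) := by
    rw [h1]
    refine Commute.sum_right _ _ _ fun a _ => Commute.sum_right _ _ _ fun b _ => ?_
    exact (commute_orbit G hG (fun r => Matrix.single (a r) (b r) (1 : ℂ))).smul_right _
  have hc : ((Fintype.card (Equiv.Perm (Fin m)) : ℕ) : ℂ) ≠ 0 := by
    exact_mod_cast Fintype.card_ne_zero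
  exact (Commute.smul_right_iff₀ hc).1 h3

/-- the permutation representation on tensors -/
noncomputable def rho (m d : ℕ) :
    Representation ℂ (Equiv.Perm (Fin m)) ((Fin m → Fin d) → ℂ) where
  toFun π := LinearMap.funLeft ℂ ℂ (fun s : Fin m → Fin d => s ∘ π)
  map_one' := by
    ext w s
    rfl
  map_mul' π σ := by
    ext w s
    rfl

theorem rho_apply (π : Equiv.Perm (Fin m)) (w : (Fin m → Fin d) → ℂ) (s : Fin m → Fin d) :
    rho m d π w s = w (s ∘ π) := rfl

/-- double commutant -/
theorem exists_perm (F : Matrix (Fin m → Fin d) (Fin m → Fin d) ℂ)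
    (hF : ∀ X : Matrix (Fin d) (Fin d) ℂ, Commute F (D m X)) :
    ∃ c : Equiv.Perm (Fin m) → ℂ, ∀ s t, F s t = ∑ π, c π * (if s = t ∘ π then 1 else 0) := by
  classical
  let ρ := rho m d
  have hne : NeZero ((Nat.card (Equiv.Perm (Fin m)) : ℕ) : ℂ) := by
    constructor
    rw [Nat.card_eq_fintype_card]
    exact_mod_cast Fintype.card_ne_zero
  have hcomm : ∀ (g : Module.End (MonoidAlgebra ℂ (Equiv.Perm (Fin m))) ρ.asModule)
      (w : (Fin m → Fin d) → ℂ),
      F.mulVec (ρ.asModuleEquiv (g (ρ.asModuleEquiv.symm w))) =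
        ρ.asModuleEquiv (g (ρ.asModuleEquiv.symm (F.mulVec w))) := by
    intro g
    let g' : ((Fin m → Fin d) → ℂ) →ₗ[ℂ] ((Fin m → Fin d) → ℂ) :=
      ρ.asModuleEquiv.toLinearMap ∘ₗ (g.restrictScalars ℂ) ∘ₗ ρ.asModuleEquiv.symm.toLinearMap
    have hg' : ∀ w, g' w = ρ.asModuleEquiv (g (ρ.asModuleEquiv.symm w)) := fun w => rfl
    have hequiv : ∀ (π : Equiv.Perm (Fin m)) w, g' (ρ π w) = ρ π (g' w) := by
      intro π w
      rw [hg', hg', Representation.asModuleEquiv_symm_map_rho, map_smul,
        Representation.asModuleEquiv_map_smul, Representation.asAlgebraHom_of]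
    have hmat : ∀ w, g' w = (LinearMap.toMatrix' g').mulVec w := by
      intro w
      rw [← Matrix.toLin'_apply, Matrix.toLin'_toMatrix']
    have hM : ∀ (π : Equiv.Perm (Fin m)) (s t : Fin m → Fin d),
        LinearMap.toMatrix' g' (s ∘ π) (t ∘ π) = LinearMap.toMatrix' g' s t := by
      intro π s t
      rw [LinearMap.toMatrix'_apply, LinearMap.toMatrix'_apply]
      have h1 : ρ π (Pi.single (t ∘ π) 1) = (Pi.single t 1 : (Fin m → Fin d) → ℂ) := by
        funext u
        have h2 : ρ π (Pi.single (t ∘ π) 1) u =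
          (Pi.single (t ∘ π) 1 : (Fin m → Fin d) → ℂ) (u ∘ π) := rfl
        rw [h2, Pi.single_apply, Pi.single_apply]
        by_cases hu : u = t
        · rw [if_pos hu, if_pos (by rw [hu])]
        · rw [if_neg hu, if_neg]
          intro h
          apply hu
          funext r
          have := congrFun h (π.symm r)
          simpa using this
      have h3 := congrFun (hequiv π (Pi.single (t ∘ π) 1)) s
      rw [h1] at h3
      rw [h3]
      rfl
    have hc := commute_inv F hF _ hM
    intro w
    rw [← hg', ← hg', hmat, hmat, Matrix.mulVec_mulVec, Matrix.mulVec_mulVec]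
    rw [hc.eq]
  let f : Module.End (Module.End (MonoidAlgebra ℂ (Equiv.Perm (Fin m))) ρ.asModule)
      ρ.asModule :=
    { toFun := fun w => ρ.asModuleEquiv.symm (F.mulVec (ρ.asModuleEquiv w))
      map_add' := fun x y => by
        rw [map_add, Matrix.mulVec_add, map_add]
      map_smul' := fun g x => by
        apply ρ.asModuleEquiv.injective
        have := hcomm g (ρ.asModuleEquiv x)
        rw [LinearEquiv.symm_apply_apply] at this
        rw [LinearEquiv.apply_symm_apply]
        exact this }
  obtain ⟨r, hr⟩ := jacobson_density f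
    (Finset.univ.image fun t : Fin m → Fin d => ρ.asModuleEquiv.symm (Pi.single t 1))
  refine ⟨fun π => r.coeff π⁻¹, fun s t => ?_⟩
  have h1 := hr _ (Finset.mem_image_of_mem _ (Finset.mem_univ t))
  have h2 := congrArg ρ.asModuleEquiv h1
  rw [Representation.asModuleEquiv_map_smul] at h2
  have h3 : F.mulVec (Pi.single t 1) = ρ.asAlgebraHom r (Pi.single t 1) := by
    have h4 : ρ.asModuleEquiv (f (ρ.asModuleEquiv.symm (Pi.single t 1))) =
        F.mulVec (Pi.single t 1) := by
      change ρ.asModuleEquiv (ρ.asModuleEquiv.symm (F.mulVec (ρ.asModuleEquiv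
        (ρ.asModuleEquiv.symm (Pi.single t 1))))) = _
      rw [LinearEquiv.apply_symm_apply, LinearEquiv.apply_symm_apply]
    rw [h4, LinearEquiv.apply_symm_apply] at h2
    exact h2
  have h4 := congrFun h3 s
  rw [Matrix.mulVec_single_one] at h4
  have h5 : F s t = (ρ.asAlgebraHom r (Pi.single t 1)) s := h4
  have h7 : (r.coeff.sum fun a b => b • ρ a) = ∑ π, r.coeff π • ρ π :=
    Finsupp.sum_fintype _ _ (fun π => zero_smul ℂ (ρ π))
  rw [h5, Representation.asAlgebraHom_def, MonoidAlgebra.lift_apply, h7, LinearMap.sum_apply,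
    Finset.sum_apply]
  refine Fintype.sum_equiv (Equiv.inv _) _ _ fun π => ?_
  beta_reduce
  rw [Equiv.inv_apply, inv_inv, LinearMap.smul_apply, Pi.smul_apply, smul_eq_mul]
  congr 1
  have h6 : (ρ π (Pi.single t 1)) s = (Pi.single t 1 : (Fin m → Fin d) → ℂ) (s ∘ π) := rfl
  rw [h6, Pi.single_apply]
  refine if_congr ?_ rfl rfl
  constructor
  · intro h
    rw [← h]
    funext r
    simp
  · intro h
    rw [h]
    funext r
    simp

end FFTgl

/-- F1: first fundamental theorem for gl in coordinates -/
theorem fft_gl {m d : ℕ} (G : (Fin m → Fin d) → (Fin m → Fin d) → ℂ)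
    (hG : ∀ (i j : Fin d) (s t : Fin m → Fin d),
      ∑ r, (if s r = j then G (Function.update s r i) t else 0) =
        ∑ r, (if t r = i then G s (Function.update t r j) else 0)) :
    ∃ c : Equiv.Perm (Fin m) → ℂ, ∀ s t, G s t = ∑ π, c π * ∏ r, (if s r = t (π r) then 1 else 0) := by
  obtain ⟨c, hc⟩ := FFTgl.exists_perm G (FFTgl.commute_D G hG)
  refine ⟨c, fun s t => ?_⟩
  rw [hc]
  refine Finset.sum_congr rfl fun π _ => ?_
  congr 1
  by_cases h : s = t ∘ π
  · rw [if_pos h, Finset.prod_eq_one]
    intro r _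
    rw [h, Function.comp_apply, if_pos rfl]
  · rw [if_neg h]
    obtain ⟨r, hr⟩ : ∃ r, s r ≠ t (π r) := by
      by_contra hcon
      push Not at hcon
      exact h (funext hcon)
    exact (Finset.prod_eq_zero (Finset.mem_univ r) (if_neg hr)).symm

end Pool.Agent.Helper7
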