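import Pool.Agent.Helper71.W4.FFTslSlots

/-!
First fundamental theorem for sl(4) in slots.
-/

set_option autoImplicit false
set_option linter.unusedSectionVars false

namespace Pool.Agent.Helper7

namespace FFTsl

open Module

variable {R : Type*} [DecidableEq R] {V V' : Type*} [AddCommGroup V] [Module ℂ V]
  [AddCommGroup V'] [Module ℂ V']

/-- the pairing as a bilinear form on the product -/
noncomputable def pairF (β : V →ₗ[ℂ] V' →ₗ[ℂ] ℂ) : (V × V') →ₗ[ℂ] (V × V') →ₗ[ℂ] ℂ :=
  β.compl₁₂ (LinearMap.fst ℂ V V') (LinearMap.snd ℂ V V')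

theorem pairF_apply (β : V →ₗ[ℂ] V' →ₗ[ℂ] ℂ) (u w : V × V') : pairF β u w = β u.1 w.2 := rfl

/-- the determinant form on the first factor -/
noncomputable def detF (b : Basis (Fin 4) ℂ V) :
    MultilinearMap ℂ (fun _ : Fin 4 => V × V') ℂ :=
  (b.det.toMultilinearMap).compLinearMap (fun _ => LinearMap.fst ℂ V V')

theorem detF_apply (b : Basis (Fin 4) ℂ V) (u : Fin 4 → V × V') :
    detF b u = b.det (fun j => (u j).1) := rfl

section prods

variable (A B : Finset R) (β : V →ₗ[ℂ] V' →ₗ[ℂ] ℂ) (b : Basis (Fin 4) ℂ V) {δ : ℕ}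
  (σ : {r // r ∈ A} ≃ {r // r ∈ B} ⊕ (Fin δ × Fin 4))

/-- slots of a quadruple -/
def qs (l : Fin δ) (j : Fin 4) : R := (σ.symm (Sum.inr (l, j))).1

/-- first slot of a pair -/
def ps (k : {r // r ∈ B}) : R := (σ.symm (Sum.inl k)).1

theorem qs_inj (l : Fin δ) (j : Fin 4) (l' : Fin δ) (j' : Fin 4)
    (h : qs A B σ l j = qs A B σ l' j') : l = l' ∧ j = j' := by
  have h1 := σ.symm.injective (Subtype.ext h)
  have h2 := Sum.inr_injective h1
  exact ⟨congrArg Prod.fst h2, congrArg Prod.snd h2⟩

theorem ps_inj (k k' : {r // r ∈ B}) (h : ps A B σ k = ps A B σ k') : k = k' :=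
  Sum.inl_injective (σ.symm.injective (Subtype.ext h))

theorem ps_ne_qs (k : {r // r ∈ B}) (l : Fin δ) (j : Fin 4) : ps A B σ k ≠ qs A B σ l j := by
  intro h
  have h1 := σ.symm.injective (Subtype.ext h)
  simp at h1

theorem pq_quads (S : Finset (Fin δ)) :
    PQ {c | ∀ u w, c u w = β u.1 w.2}
      ({D | ∃ ω : V [⋀^Fin 4]→ₗ[ℂ] ℂ, ∀ u, D u = ω (fun j => (u j).1)} ∪
       {D | ∃ ω : V' [⋀^Fin 4]→ₗ[ℂ] ℂ, ∀ u, D u = ω (fun j => (u j).2)})
      (S.biUnion fun l => Finset.univ.image (qs A B σ l))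
      (fun v : R → V × V' => ∏ l ∈ S, b.det (fun j => (v (qs A B σ l j)).1)) := by
  classical
  induction S using Finset.induction_on with
  | empty =>
    rw [Finset.biUnion_empty]
    simp only [Finset.prod_empty]
    exact PQ.nil
  | insert l S hl ih =>
    have h1 := PQ.quad (qs A B σ l) (detF b) (Or.inl ⟨b.det, fun u => rfl⟩) ih
      (fun j j' h => (qs_inj A B σ l j l j' h).2) (fun j hj => by
        rw [Finset.mem_biUnion] at hj
        obtain ⟨l', hl', hj⟩ := hj
        rw [Finset.mem_image] at hj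
        obtain ⟨j', _, hj'⟩ := hj
        have h2 := (qs_inj A B σ l' j' l j hj').1
        rw [h2] at hl'
        exact hl hl')
    rw [Finset.biUnion_insert]
    have h2 : (fun v : R → V × V' => ∏ l' ∈ insert l S, b.det (fun j => (v (qs A B σ l' j)).1)) =
        fun v => detF b (fun j => v (qs A B σ l j)) *
          ∏ l' ∈ S, b.det (fun j => (v (qs A B σ l' j)).1) := by
      funext v
      rw [Finset.prod_insert hl]
      rfl
    rw [h2]
    exact h1

theorem pq_all (hAB : Disjoint A B) (K : Finset {r // r ∈ B}) :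
    PQ {c | ∀ u w, c u w = β u.1 w.2}
      ({D | ∃ ω : V [⋀^Fin 4]→ₗ[ℂ] ℂ, ∀ u, D u = ω (fun j => (u j).1)} ∪
       {D | ∃ ω : V' [⋀^Fin 4]→ₗ[ℂ] ℂ, ∀ u, D u = ω (fun j => (u j).2)})
      (K.image (ps A B σ) ∪ K.image (fun k => k.1) ∪
        (Finset.univ.biUnion fun l => Finset.univ.image (qs A B σ l)))
      (fun v : R → V × V' => (∏ k ∈ K, β (v (ps A B σ k)).1 (v k.1).2) *
        ∏ l, b.det (fun j => (v (qs A B σ l j)).1)) := by
  classical
  induction K using Finset.induction_on with
  | empty =>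
    rw [Finset.image_empty, Finset.image_empty, Finset.empty_union, Finset.empty_union]
    simp only [Finset.prod_empty, one_mul]
    exact pq_quads A B β b σ Finset.univ
  | insert k K hk ih =>
    have hpA : ∀ k, ps A B σ k ∈ A := fun k => (σ.symm (Sum.inl k)).2
    have hqA : ∀ l j, qs A B σ l j ∈ A := fun l j => (σ.symm (Sum.inr (l, j))).2
    have hne : ps A B σ k ≠ k.1 := by
      intro h
      exact Finset.disjoint_left.1 hAB (hpA k) (h ▸ k.2)
    have hr : ps A B σ k ∉ K.image (ps A B σ) ∪ K.image (fun k => k.1) ∪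
        (Finset.univ.biUnion fun l => Finset.univ.image (qs A B σ l)) := by
      intro h
      rw [Finset.mem_union, Finset.mem_union, Finset.mem_image, Finset.mem_image,
        Finset.mem_biUnion] at h
      rcases h with (⟨k', hk', h⟩ | ⟨k', _, h⟩) | ⟨l, _, h⟩
      · rw [ps_inj A B σ k' k h] at hk'
        exact hk hk'
      · exact Finset.disjoint_left.1 hAB (hpA k) (h ▸ k'.2)
      · rw [Finset.mem_image] at h
        obtain ⟨j, _, h⟩ := h
        exact ps_ne_qs A B σ k l j h.symm
    have hr' : k.1 ∉ K.image (ps A B σ) ∪ K.image (fun k => k.1) ∪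
        (Finset.univ.biUnion fun l => Finset.univ.image (qs A B σ l)) := by
      intro h
      rw [Finset.mem_union, Finset.mem_union, Finset.mem_image, Finset.mem_image,
        Finset.mem_biUnion] at h
      rcases h with (⟨k', _, h⟩ | ⟨k', hk', h⟩) | ⟨l, _, h⟩
      · exact Finset.disjoint_left.1 hAB (hpA k') (h ▸ k.2)
      · rw [Subtype.ext h] at hk'
        exact hk hk'
      · rw [Finset.mem_image] at h
        obtain ⟨j, _, h⟩ := h
        exact Finset.disjoint_left.1 hAB (hqA l j) (h ▸ k.2)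
    have hmem : pairF β ∈ {c : (V × V') →ₗ[ℂ] (V × V') →ₗ[ℂ] ℂ | ∀ u w, c u w = β u.1 w.2} :=
      fun u w => rfl
    have h1 := PQ.pair (ps A B σ k) k.1 (pairF β) hmem ih hr hr' hne
    have h2 : (insert k K).image (ps A B σ) ∪ (insert k K).image (fun k => k.1) ∪
        (Finset.univ.biUnion fun l => Finset.univ.image (qs A B σ l)) =
        insert (ps A B σ k) (insert k.1 (K.image (ps A B σ) ∪ K.image (fun k => k.1) ∪
        (Finset.univ.biUnion fun l => Finset.univ.image (qs A B σ l)))) := by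
      rw [Finset.image_insert, Finset.image_insert]
      ext x
      simp only [Finset.mem_union, Finset.mem_insert]
      tauto
    rw [h2]
    have h3 : (fun v : R → V × V' => (∏ k' ∈ insert k K, β (v (ps A B σ k')).1 (v k'.1).2) *
        ∏ l, b.det (fun j => (v (qs A B σ l j)).1)) =
        fun v => pairF β (v (ps A B σ k)) (v k.1) *
          ((∏ k' ∈ K, β (v (ps A B σ k')).1 (v k'.1).2) *
            ∏ l, b.det (fun j => (v (qs A B σ l j)).1)) := by
      funext v
      rw [Finset.prod_insert hk, mul_assoc]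
      rfl
    rw [h3]
    exact h1

/-- the products -/
noncomputable def prodF (v : R → V × V') : ℂ :=
  (∏ k, β (v (ps A B σ k)).1 (v k.1).2) * ∏ l, b.det (fun j => (v (qs A B σ l j)).1)

theorem prodF_pq (hAB : Disjoint A B) :
    PQ {c | ∀ u w, c u w = β u.1 w.2}
      ({D | ∃ ω : V [⋀^Fin 4]→ₗ[ℂ] ℂ, ∀ u, D u = ω (fun j => (u j).1)} ∪
       {D | ∃ ω : V' [⋀^Fin 4]→ₗ[ℂ] ℂ, ∀ u, D u = ω (fun j => (u j).2)})
      (A ∪ B) (prodF A B β b σ) := by
  classical
  have h1 := pq_all A B β b σ hAB Finset.univ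
  have h2 : (Finset.univ.image (ps A B σ) ∪ Finset.univ.image (fun k : {r // r ∈ B} => k.1) ∪
        (Finset.univ.biUnion fun l => Finset.univ.image (qs A B σ l))) = A ∪ B := by
    ext x
    simp only [Finset.mem_union, Finset.mem_image, Finset.mem_biUnion, Finset.mem_univ, true_and]
    constructor
    · rintro ((⟨k, rfl⟩ | ⟨k, rfl⟩) | ⟨l, j, rfl⟩)
      · exact Or.inl (σ.symm (Sum.inl k)).2
      · exact Or.inr k.2
      · exact Or.inl (σ.symm (Sum.inr (l, j))).2
    · rintro (hx | hx)
      · rcases hσ : σ ⟨x, hx⟩ with k | ⟨l, j⟩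
        · left; left
          refine ⟨k, ?_⟩
          unfold ps
          rw [← hσ, σ.symm_apply_apply]
        · right
          refine ⟨l, j, ?_⟩
          unfold qs
          rw [← hσ, σ.symm_apply_apply]
      · left; right
        exact ⟨⟨x, hx⟩, rfl⟩
  rw [h2] at h1
  exact h1

theorem prodF_SL (hAB : Disjoint A B) : SL A B (prodF A B β b σ) := by
  have hpq := prodF_pq A B β b σ hAB
  constructor
  · intro v v' hA hB
    unfold prodF
    congr 1
    · refine Finset.prod_congr rfl fun k _ => ?_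
      rw [hA (ps A B σ k) (σ.symm (Sum.inl k)).2, hB _ k.2]
    · refine Finset.prod_congr rfl fun l _ => ?_
      congr 1
      funext j
      exact hA _ (σ.symm (Sum.inr (l, j))).2
  · intro v r hr x y
    obtain ⟨f, hf⟩ := pq_lin hpq v r hr
    rw [hf, hf, hf, map_add]
  · intro v r hr c x
    obtain ⟨f, hf⟩ := pq_lin hpq v r hr
    rw [hf, hf, map_smul, smul_eq_mul]

theorem prodF_frame (hAB : Disjoint A B) (b' : Basis (Fin 4) ℂ V')
    (hbb : ∀ i j, β (b i) (b' j) = if i = j then 1 else 0)
    (s : {r // r ∈ A} → Fin 4) (t : {r // r ∈ B} → Fin 4) :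
    prodF A B β b σ (frame A B b b' s t) = Psi σ s t := by
  unfold prodF Psi
  congr 1
  · refine Finset.prod_congr rfl fun k _ => ?_
    unfold ps
    rw [frame_A A B b b' s t _ (σ.symm (Sum.inl k)).2, frame_B A B hAB b b' s t _ k.2]
    exact hbb _ _
  · refine Finset.prod_congr rfl fun l _ => ?_
    have h1 : (fun j => (frame A B b b' s t (qs A B σ l j)).1) =
        fun j => b (s (σ.symm (Sum.inr (l, j)))) := by
      funext j
      unfold qs
      rw [frame_A A B b b' s t _ (σ.symm (Sum.inr (l, j))).2]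
    rw [h1, Basis.det_apply, eps_eq_det]
    congr 1
    ext i j
    rw [Basis.toMatrix_apply, Basis.repr_self, Finsupp.single_apply, Matrix.of_apply]

end prods

/-- elementary endomorphisms -/
noncomputable def EE (b : Basis (Fin 4) ℂ V) (i j : Fin 4) : Module.End ℂ V :=
  b.constr ℂ (fun l => if l = j then b i else 0)

theorem EE_apply (b : Basis (Fin 4) ℂ V) (i j l : Fin 4) :
    EE b i j (b l) = if l = j then b i else 0 := by
  unfold EE
  rw [Basis.constr_basis]

theorem EE_trace (b : Basis (Fin 4) ℂ V) (i j : Fin 4) :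
    LinearMap.trace ℂ V (EE b i j) = if i = j then 1 else 0 := by
  rw [LinearMap.trace_eq_matrix_trace ℂ b, Matrix.trace]
  simp only [Matrix.diag_apply, LinearMap.toMatrix_apply, EE_apply]
  rw [Finset.sum_eq_single j]
  · rw [if_pos rfl, Basis.repr_self, Finsupp.single_apply]
  · intro k _ hk
    rw [if_neg hk, map_zero]
    rfl
  · intro h
    exact absurd (Finset.mem_univ _) h

theorem EE_adj (β : V →ₗ[ℂ] V' →ₗ[ℂ] ℂ) (b : Basis (Fin 4) ℂ V) (b' : Basis (Fin 4) ℂ V')
    (hbb : ∀ i j, β (b i) (b' j) = if i = j then 1 else 0) (i j : Fin 4) (u : V) (v : V') :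
    β (EE b i j u) v + β u (-(EE b' j i v)) = 0 := by
  have h1 : β ∘ₗ EE b i j = β.compl₂ (EE b' j i) := by
    apply b.ext
    intro l
    apply b'.ext
    intro k
    rw [LinearMap.comp_apply, LinearMap.compl₂_apply, EE_apply, EE_apply]
    by_cases hl : l = j
    · subst hl
      rw [if_pos rfl, hbb]
      by_cases hk : k = i
      · subst hk
        rw [if_pos rfl, if_pos rfl, hbb, if_pos rfl]
      · rw [if_neg (Ne.symm hk), if_neg hk, map_zero]
    · rw [if_neg hl, map_zero, LinearMap.zero_apply]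
      by_cases hk : k = i
      · subst hk
        rw [if_pos rfl, hbb, if_neg hl]
      · rw [if_neg hk, map_zero]
  have h2 := LinearMap.congr_fun (LinearMap.congr_fun h1 u) v
  rw [LinearMap.comp_apply, LinearMap.compl₂_apply] at h2
  rw [map_neg, h2, add_neg_cancel]

theorem diag_term {A B : Finset R} (hAB : Disjoint A B) {Φ : (R → V × V') → ℂ} (h : SL A B Φ)
    (b : Basis (Fin 4) ℂ V) (b' : Basis (Fin 4) ℂ V') (i j : Fin 4)
    (s : {r // r ∈ A} → Fin 4) (t : {r // r ∈ B} → Fin 4) :
    ∑ r ∈ A ∪ B, Φ (Function.update (frame A B b b' s t) r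
      (EE b i j (frame A B b b' s t r).1, -(EE b' j i (frame A B b b' s t r).2))) =
    ∑ r, (if s r = j then Φ (frame A B b b' (Function.update s r i) t) else 0) -
      ∑ r, (if t r = i then Φ (frame A B b b' s (Function.update t r j)) else 0) := by
  rw [Finset.sum_union hAB, sub_eq_add_neg, ← Finset.sum_neg_distrib]
  congr 1
  · rw [← Finset.sum_coe_sort A]
    refine Finset.sum_congr rfl fun r _ => ?_
    rw [frame_A A B b b' s t r.1 r.2, map_zero, neg_zero, EE_apply]
    by_cases hr : s r = j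
    · rw [if_pos hr, if_pos hr, update_frame_A]
    · rw [if_neg hr, if_neg hr]
      exact h.upd_zero _ _ (Finset.mem_union_left _ r.2)
  · rw [← Finset.sum_coe_sort B]
    refine Finset.sum_congr rfl fun r _ => ?_
    rw [frame_B A B hAB b b' s t r.1 r.2, map_zero, EE_apply]
    by_cases hr : t r = i
    · rw [if_pos hr, if_pos hr]
      have h1 : ((0 : V), -(b' j)) = (-1 : ℂ) • ((0 : V), b' j) := by
        rw [Prod.smul_mk, smul_zero, neg_one_smul]
      rw [h1, h.smul _ _ (Finset.mem_union_right _ r.2), update_frame_B A B hAB]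
      ring
    · rw [if_neg hr, if_neg hr, neg_zero, neg_zero]
      exact h.upd_zero _ _ (Finset.mem_union_right _ r.2)

/-- coordinates of a slot function -/
noncomputable def coordF (A B : Finset R) (b : Fin 4 → V) (b' : Fin 4 → V')
    (Φ : (R → V × V') → ℂ) (s : {r // r ∈ A} → Fin 4) (t : {r // r ∈ B} → Fin 4) : ℂ :=
  Φ (frame A B b b' s t)

theorem off_diag {A B : Finset R} (hAB : Disjoint A B) {Φ : (R → V × V') → ℂ} (h : SL A B Φ)
    (β : V →ₗ[ℂ] V' →ₗ[ℂ] ℂ) (b : Basis (Fin 4) ℂ V) (b' : Basis (Fin 4) ℂ V')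
    (hbb : ∀ i j, β (b i) (b' j) = if i = j then 1 else 0)
    (inv : ∀ (X : Module.End ℂ V) (X' : Module.End ℂ V'), LinearMap.trace ℂ V X = 0 →
      (∀ u v, β (X u) v + β u (X' v) = 0) → ∀ v,
      ∑ r ∈ A ∪ B, Φ (Function.update v r (X (v r).1, X' (v r).2)) = 0)
    (i j : Fin 4) (hij : i ≠ j) (s : {r // r ∈ A} → Fin 4) (t : {r // r ∈ B} → Fin 4) :
    ∑ r, (if s r = j then coordF A B b b' Φ (Function.update s r i) t else 0) =
      ∑ r, (if t r = i then coordF A B b b' Φ s (Function.update t r j) else 0) := by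
  have h1 := diag_term hAB h b b' i j s t
  have h2 := inv (EE b i j) (-(EE b' j i)) (by rw [EE_trace, if_neg hij])
    (fun u v => EE_adj β b b' hbb i j u v) (frame A B b b' s t)
  simp only [LinearMap.neg_apply] at h2
  rw [h2] at h1
  exact (sub_eq_zero.1 h1.symm)

theorem diag_diff {A B : Finset R} (hAB : Disjoint A B) {Φ : (R → V × V') → ℂ} (h : SL A B Φ)
    (β : V →ₗ[ℂ] V' →ₗ[ℂ] ℂ) (b : Basis (Fin 4) ℂ V) (b' : Basis (Fin 4) ℂ V')
    (hbb : ∀ i j, β (b i) (b' j) = if i = j then 1 else 0)
    (inv : ∀ (X : Module.End ℂ V) (X' : Module.End ℂ V'), LinearMap.trace ℂ V X = 0 →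
      (∀ u v, β (X u) v + β u (X' v) = 0) → ∀ v,
      ∑ r ∈ A ∪ B, Φ (Function.update v r (X (v r).1, X' (v r).2)) = 0)
    (i j : Fin 4) (s : {r // r ∈ A} → Fin 4) (t : {r // r ∈ B} → Fin 4)
    (hne : coordF A B b b' Φ s t ≠ 0) :
    ((Finset.univ.filter fun r => s r = i).card : ℤ) - (Finset.univ.filter fun r => t r = i).card =
      ((Finset.univ.filter fun r => s r = j).card : ℤ) -
        (Finset.univ.filter fun r => t r = j).card := by
  have hd : ∀ i : Fin 4, ∑ r ∈ A ∪ B, Φ (Function.update (frame A B b b' s t) r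
      (EE b i i (frame A B b b' s t r).1, -(EE b' i i (frame A B b b' s t r).2))) =
      (((Finset.univ.filter fun r => s r = i).card : ℂ) -
        (Finset.univ.filter fun r => t r = i).card) * coordF A B b b' Φ s t := by
    intro i
    rw [diag_term hAB h b b' i i s t, sub_mul]
    congr 1
    · rw [← nsmul_eq_mul, ← Finset.sum_const, Finset.sum_filter]
      refine Finset.sum_congr rfl fun r _ => ?_
      by_cases hr : s r = i
      · rw [if_pos hr, if_pos hr]
        unfold coordF
        rw [← hr, Function.update_eq_self]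
      · rw [if_neg hr, if_neg hr]
    · rw [← nsmul_eq_mul, ← Finset.sum_const, Finset.sum_filter]
      refine Finset.sum_congr rfl fun r _ => ?_
      by_cases hr : t r = i
      · rw [if_pos hr, if_pos hr]
        unfold coordF
        rw [← hr, Function.update_eq_self]
      · rw [if_neg hr, if_neg hr]
  have h2 := inv (EE b i i - EE b j j) (-(EE b' i i) - -(EE b' j j))
    (by rw [map_sub, EE_trace, EE_trace, if_pos rfl, if_pos rfl, sub_self])
    (fun u v => by
      have h3 := EE_adj β b b' hbb i i u v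
      have h4 := EE_adj β b b' hbb j j u v
      simp only [LinearMap.sub_apply, LinearMap.neg_apply, map_sub] at h3 h4 ⊢
      linear_combination h3 - h4) (frame A B b b' s t)
  have h3 : ∑ r ∈ A ∪ B, Φ (Function.update (frame A B b b' s t) r
      ((EE b i i - EE b j j) (frame A B b b' s t r).1,
        (-(EE b' i i) - -(EE b' j j)) (frame A B b b' s t r).2)) =
      ∑ r ∈ A ∪ B, Φ (Function.update (frame A B b b' s t) r
      (EE b i i (frame A B b b' s t r).1, -(EE b' i i (frame A B b b' s t r).2))) -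
      ∑ r ∈ A ∪ B, Φ (Function.update (frame A B b b' s t) r
      (EE b j j (frame A B b b' s t r).1, -(EE b' j j (frame A B b b' s t r).2))) := by
    rw [← Finset.sum_sub_distrib]
    refine Finset.sum_congr rfl fun r hr => ?_
    have h4 : ((EE b i i - EE b j j) (frame A B b b' s t r).1,
        (-(EE b' i i) - -(EE b' j j)) (frame A B b b' s t r).2) =
        (EE b i i (frame A B b b' s t r).1, -(EE b' i i (frame A B b b' s t r).2)) +
        (-1 : ℂ) • (EE b j j (frame A B b b' s t r).1, -(EE b' j j (frame A B b b' s t r).2)) := by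
      rw [Prod.smul_mk, Prod.mk_add_mk, LinearMap.sub_apply, LinearMap.sub_apply,
        LinearMap.neg_apply, LinearMap.neg_apply, neg_one_smul, neg_one_smul, sub_eq_add_neg,
        sub_eq_add_neg]
    rw [h4, h.add _ _ hr, h.smul _ _ hr]
    ring
  rw [h3, hd i, hd j, ← sub_mul] at h2
  have h5 := (mul_eq_zero.1 h2).resolve_right hne
  have h6 : ((((Finset.univ.filter fun r => s r = i).card : ℤ) -
      (Finset.univ.filter fun r => t r = i).card : ℤ) : ℂ) =
      ((((Finset.univ.filter fun r => s r = j).card : ℤ) -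
        (Finset.univ.filter fun r => t r = j).card : ℤ) : ℂ) := by
    push_cast
    exact sub_eq_zero.1 h5
  exact_mod_cast h6

theorem card_fib {T : Finset R} (s : {r // r ∈ T} → Fin 4) :
    T.card = ∑ i, (Finset.univ.filter fun r => s r = i).card := by
  have h1 := Finset.card_eq_sum_card_fiberwise (f := s) (s := Finset.univ) (t := Finset.univ)
    (fun _ _ => Finset.mem_coe.2 (Finset.mem_univ _))
  rw [Finset.card_univ, Fintype.card_coe] at h1
  exact h1

/-- the span of the products -/
def SPN (β : V →ₗ[ℂ] V' →ₗ[ℂ] ℂ) (T : Finset R) : Submodule ℂ ((R → V × V') → ℂ) :=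
  Submodule.span ℂ {Ψ | PQ {c | ∀ u w, c u w = β u.1 w.2}
      ({D | ∃ ω : V [⋀^Fin 4]→ₗ[ℂ] ℂ, ∀ u, D u = ω (fun j => (u j).1)} ∪
       {D | ∃ ω : V' [⋀^Fin 4]→ₗ[ℂ] ℂ, ∀ u, D u = ω (fun j => (u j).2)}) T Ψ}

theorem main_ge
    (β : V →ₗ[ℂ] V' →ₗ[ℂ] ℂ) (b : Basis (Fin 4) ℂ V) (b' : Basis (Fin 4) ℂ V')
    (hbb : ∀ i j, β (b i) (b' j) = if i = j then 1 else 0)
    (A B : Finset R) (hAB : Disjoint A B) (Φ : (R → V × V') → ℂ) (h : SL A B Φ)
    (inv : ∀ (X : Module.End ℂ V) (X' : Module.End ℂ V'), LinearMap.trace ℂ V X = 0 →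
      (∀ u v, β (X u) v + β u (X' v) = 0) → ∀ v,
      ∑ r ∈ A ∪ B, Φ (Function.update v r (X (v r).1, X' (v r).2)) = 0)
    (hle : B.card ≤ A.card) :
    Φ ∈ SPN β (A ∪ B) := by
  classical
  have hzero : SL A B (0 : (R → V × V') → ℂ) :=
    ⟨fun _ _ _ _ => rfl, fun _ _ _ _ _ => by simp, fun _ _ _ _ _ => by simp⟩
  by_cases hG : ∃ s t, coordF A B b b' Φ s t ≠ 0
  · obtain ⟨s₀, t₀, hne₀⟩ := hG
    have hdiff : ∀ s t, coordF A B b b' Φ s t ≠ 0 → ∀ i,
        4 * (((Finset.univ.filter fun r => s r = i).card : ℤ) -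
          (Finset.univ.filter fun r => t r = i).card) = (A.card : ℤ) - B.card := by
      intro s t hne i
      have h1 := fun j => diag_diff hAB h β b b' hbb inv j i s t hne
      have h2 : (A.card : ℤ) - B.card = ∑ j : Fin 4,
          (((Finset.univ.filter fun r => s r = j).card : ℤ) -
          (Finset.univ.filter fun r => t r = j).card) := by
        rw [Finset.sum_sub_distrib, card_fib s, card_fib t]
        push_cast
        rfl
      rw [h2, Finset.sum_congr rfl fun j _ => h1 j, Finset.sum_const, Finset.card_univ,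
        Fintype.card_fin]
      simp
    obtain ⟨δ, hδ⟩ : ∃ δ : ℕ, A.card = B.card + 4 * δ := by
      have h1 := hdiff s₀ t₀ hne₀ 0
      refine ⟨((((Finset.univ.filter fun r => s₀ r = 0).card : ℤ) -
          (Finset.univ.filter fun r => t₀ r = 0).card)).toNat, ?_⟩
      omega
    have hInv : Inv δ (coordF A B b b' Φ) := by
      constructor
      · exact fun i j hij s t => off_diag hAB h β b b' hbb inv i j hij s t
      · intro s t hne i
        have h1 := hdiff s t hne i
        omega
    have hcore := core δ (coordF A B b b' Φ) hInv (by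
      rw [Fintype.card_coe, Fintype.card_coe]
      exact hδ)
    have hreal : ∀ H ∈ Submodule.span ℂ (Set.range
        (Psi (α := {r // r ∈ A}) (κ := {r // r ∈ B}) (δ := δ))),
        ∃ Φ' : (R → V × V') → ℂ, Φ' ∈ SPN β (A ∪ B) ∧ SL A B Φ' ∧
          ∀ s t, Φ' (frame A B b b' s t) = H s t := by
      intro H hH
      induction hH using Submodule.span_induction with
      | mem H hH =>
        obtain ⟨σ, rfl⟩ := hH
        exact ⟨prodF A B β b σ, Submodule.subset_span (prodF_pq A B β b σ hAB),
          prodF_SL A B β b σ hAB, prodF_frame A B β b σ hAB b' hbb⟩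
      | zero =>
        exact ⟨0, Submodule.zero_mem _, hzero, fun _ _ => rfl⟩
      | add x y _ _ hx hy =>
        obtain ⟨F, hF1, hF2, hF3⟩ := hx
        obtain ⟨F', hF1', hF2', hF3'⟩ := hy
        refine ⟨F + F', Submodule.add_mem _ hF1 hF1', ⟨?_, ?_, ?_⟩, ?_⟩
        · intro v v' h1 h2
          rw [Pi.add_apply, Pi.add_apply, hF2.dep v v' h1 h2, hF2'.dep v v' h1 h2]
        · intro v r hr x y
          simp only [Pi.add_apply, hF2.add v r hr, hF2'.add v r hr]
          ring
        · intro v r hr c x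
          simp only [Pi.add_apply, hF2.smul v r hr, hF2'.smul v r hr]
          ring
        · intro s t
          simp only [Pi.add_apply, hF3, hF3']
      | smul c x _ hx =>
        obtain ⟨F, hF1, hF2, hF3⟩ := hx
        refine ⟨c • F, Submodule.smul_mem _ _ hF1, ⟨?_, ?_, ?_⟩, ?_⟩
        · intro v v' h1 h2
          rw [Pi.smul_apply, Pi.smul_apply, hF2.dep v v' h1 h2]
        · intro v r hr x y
          simp only [Pi.smul_apply, smul_eq_mul, hF2.add v r hr]
          ring
        · intro v r hr c x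
          simp only [Pi.smul_apply, smul_eq_mul, hF2.smul v r hr]
          ring
        · intro s t
          simp only [Pi.smul_apply, hF3]
    obtain ⟨Φ', hΦ1, hΦ2, hΦ3⟩ := hreal _ hcore
    have heq : Φ = Φ' := h.ext hAB hΦ2 b b' fun s t => (hΦ3 s t).symm
    rw [heq]
    exact hΦ1
  · push Not at hG
    have heq : Φ = 0 := h.ext hAB hzero b b' fun s t => hG s t
    rw [heq]
    exact Submodule.zero_mem _

/-- exchange of the two factors -/
theorem pq_swap (β : V →ₗ[ℂ] V' →ₗ[ℂ] ℂ) {T : Finset R} {Ψ : (R → V' × V) → ℂ}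
    (h : PQ {c | ∀ u w, c u w = β.flip u.1 w.2}
      ({D | ∃ ω : V' [⋀^Fin 4]→ₗ[ℂ] ℂ, ∀ u, D u = ω (fun j => (u j).1)} ∪
       {D | ∃ ω : V [⋀^Fin 4]→ₗ[ℂ] ℂ, ∀ u, D u = ω (fun j => (u j).2)}) T Ψ) :
    PQ {c | ∀ u w, c u w = β u.1 w.2}
      ({D | ∃ ω : V [⋀^Fin 4]→ₗ[ℂ] ℂ, ∀ u, D u = ω (fun j => (u j).1)} ∪
       {D | ∃ ω : V' [⋀^Fin 4]→ₗ[ℂ] ℂ, ∀ u, D u = ω (fun j => (u j).2)}) T
      (fun v : R → V × V' => Ψ (fun r => (v r).swap)) := by
  induction h with
  | nil => exact PQ.nil
  | @pair T Φ r r' β' hβ' _ hr hr' hne ih =>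
    have hmem : pairF β ∈ {c : (V × V') →ₗ[ℂ] (V × V') →ₗ[ℂ] ℂ | ∀ u w, c u w = β u.1 w.2} :=
      fun u w => rfl
    have h1 := PQ.pair r' r (pairF β) hmem ih hr' hr hne.symm
    rw [Finset.insert_comm] at h1
    have h2 : (fun v : R → V × V' => β' (v r).swap (v r').swap * Φ (fun r => (v r).swap)) =
        fun v => pairF β (v r') (v r) * Φ (fun r => (v r).swap) := by
      funext v
      rw [hβ' (v r).swap (v r').swap]
      rfl
    rw [h2]
    exact h1
  | @quad T Φ e D hD _ he hT ih =>
    rcases hD with ⟨ω, hω⟩ | ⟨ω, hω⟩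
    · have h1 := PQ.quad e ((ω.toMultilinearMap).compLinearMap
        (fun _ => LinearMap.snd ℂ V V')) (Or.inr ⟨ω, fun u => rfl⟩) ih he hT
      have h2 : (fun v : R → V × V' => D (fun j => (v (e j)).swap) * Φ (fun r => (v r).swap)) =
          fun v => ((ω.toMultilinearMap).compLinearMap (fun _ => LinearMap.snd ℂ V V'))
            (fun j => v (e j)) * Φ (fun r => (v r).swap) := by
        funext v
        rw [hω]
        rfl
      rw [h2]
      exact h1
    · have h1 := PQ.quad e ((ω.toMultilinearMap).compLinearMap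
        (fun _ => LinearMap.fst ℂ V V')) (Or.inl ⟨ω, fun u => rfl⟩) ih he hT
      have h2 : (fun v : R → V × V' => D (fun j => (v (e j)).swap) * Φ (fun r => (v r).swap)) =
          fun v => ((ω.toMultilinearMap).compLinearMap (fun _ => LinearMap.fst ℂ V V'))
            (fun j => v (e j)) * Φ (fun r => (v r).swap) := by
        funext v
        rw [hω]
        rfl
      rw [h2]
      exact h1

theorem spn_swap (β : V →ₗ[ℂ] V' →ₗ[ℂ] ℂ) (T : Finset R) (Φ : (R → V' × V) → ℂ)
    (h : Φ ∈ SPN β.flip T) : (fun v : R → V × V' => Φ (fun r => (v r).swap)) ∈ SPN β T := by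
  unfold SPN at h
  induction h using Submodule.span_induction with
  | mem Ψ hΨ => exact Submodule.subset_span (pq_swap β hΨ)
  | zero => exact Submodule.zero_mem _
  | add x y _ _ hx hy => exact Submodule.add_mem _ hx hy
  | smul c x _ hx => exact Submodule.smul_mem _ c hx

theorem swap_update (v : R → V' × V) (r : R) (x : V' × V) :
    (fun r' => (Function.update v r x r').swap) =
      Function.update (fun r' => (v r').swap) r x.swap := by
  funext r'
  by_cases h : r' = r
  · subst h
    rw [Function.update_self, Function.update_self]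
  · rw [Function.update_of_ne h, Function.update_of_ne h]

theorem trace_adj (β : V →ₗ[ℂ] V' →ₗ[ℂ] ℂ) (b : Basis (Fin 4) ℂ V) (b' : Basis (Fin 4) ℂ V')
    (hbb : ∀ i j, β (b i) (b' j) = if i = j then 1 else 0)
    (X : Module.End ℂ V) (X' : Module.End ℂ V')
    (h : ∀ u v, β (X u) v + β u (X' v) = 0) :
    LinearMap.trace ℂ V X = - LinearMap.trace ℂ V' X' := by
  have h1 : ∀ i x, b.repr x i = β x (b' i) := by
    intro i x
    have h2 : b.coord i = β.flip (b' i) := by
      apply b.ext
      intro k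
      rw [Basis.coord_apply, Basis.repr_self, Finsupp.single_apply, LinearMap.flip_apply, hbb]
    have h3 := LinearMap.congr_fun h2 x
    rw [Basis.coord_apply] at h3
    exact h3
  have h1' : ∀ i y, b'.repr y i = β (b i) y := by
    intro i y
    have h2 : b'.coord i = β (b i) := by
      apply b'.ext
      intro k
      rw [Basis.coord_apply, Basis.repr_self, Finsupp.single_apply, hbb]
      by_cases hik : i = k
      · rw [if_pos hik, if_pos hik.symm]
      · rw [if_neg hik, if_neg (Ne.symm hik)]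
    have h3 := LinearMap.congr_fun h2 y
    rw [Basis.coord_apply] at h3
    exact h3
  rw [LinearMap.trace_eq_matrix_trace ℂ b, LinearMap.trace_eq_matrix_trace ℂ b', Matrix.trace,
    Matrix.trace, ← Finset.sum_neg_distrib]
  refine Finset.sum_congr rfl fun i _ => ?_
  rw [Matrix.diag_apply, Matrix.diag_apply, LinearMap.toMatrix_apply, LinearMap.toMatrix_apply,
    h1, h1']
  exact eq_neg_of_add_eq_zero_left (h _ _)

end FFTsl

open Module FFTsl in
/-- F2: `A` are the slots of type `V`, `B` the slots of type `V'` -/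
theorem fft_sl {R : Type*} [DecidableEq R] {V V' : Type*} [AddCommGroup V] [Module ℂ V]
    [FiniteDimensional ℂ V] [AddCommGroup V'] [Module ℂ V'] [FiniteDimensional ℂ V']
    (hd : finrank ℂ V = 4) (β : V →ₗ[ℂ] V' →ₗ[ℂ] ℂ) (hβ1 : ∀ u, (∀ v, β u v = 0) → u = 0)
    (hβ2 : ∀ v, (∀ u, β u v = 0) → v = 0) (A B : Finset R) (hAB : Disjoint A B)
    (Φ : (R → V × V') → ℂ)
    (depA : ∀ v v', (∀ r ∈ A, (v r).1 = (v' r).1) → (∀ r ∈ B, (v r).2 = (v' r).2) → Φ v = Φ v')
    (add : ∀ v, ∀ r ∈ A ∪ B, ∀ x y, Φ (Function.update v r (x + y)) =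
      Φ (Function.update v r x) + Φ (Function.update v r y))
    (smul : ∀ v, ∀ r ∈ A ∪ B, ∀ (c : ℂ) x, Φ (Function.update v r (c • x)) =
      c * Φ (Function.update v r x))
    (inv : ∀ (X : Module.End ℂ V) (X' : Module.End ℂ V'), LinearMap.trace ℂ V X = 0 →
      (∀ u v, β (X u) v + β u (X' v) = 0) → ∀ v,
      ∑ r ∈ A ∪ B, Φ (Function.update v r (X (v r).1, X' (v r).2)) = 0) :
    Φ ∈ Submodule.span ℂ {Ψ | PQ {b | ∀ u w, b u w = β u.1 w.2}
      ({D | ∃ ω : V [⋀^Fin 4]→ₗ[ℂ] ℂ, ∀ u, D u = ω (fun j => (u j).1)} ∪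
       {D | ∃ ω : V' [⋀^Fin 4]→ₗ[ℂ] ℂ, ∀ u, D u = ω (fun j => (u j).2)}) (A ∪ B) Ψ} := by
  classical
  let b : Basis (Fin 4) ℂ V := Module.finBasisOfFinrankEq ℂ V hd
  have hinj1 : Function.Injective β := by
    rw [injective_iff_map_eq_zero]
    intro u hu
    exact hβ1 u fun v => by rw [hu]; rfl
  have hinj2 : Function.Injective β.flip := by
    rw [injective_iff_map_eq_zero]
    intro v hv
    exact hβ2 v fun u => by
      have := LinearMap.congr_fun hv u
      exact this
  have hle1 : finrank ℂ V ≤ finrank ℂ V' := by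
    have := LinearMap.finrank_le_finrank_of_injective hinj1
    rwa [Subspace.dual_finrank_eq] at this
  have hle2 : finrank ℂ V' ≤ finrank ℂ V := by
    have := LinearMap.finrank_le_finrank_of_injective hinj2
    rwa [Subspace.dual_finrank_eq] at this
  have hsurj : Function.Surjective β.flip :=
    (LinearMap.injective_iff_surjective_of_finrank_eq_finrank (by
      rw [Subspace.dual_finrank_eq]
      exact le_antisymm hle2 hle1)).1 hinj2
  let e : V' ≃ₗ[ℂ] Module.Dual ℂ V := LinearEquiv.ofBijective β.flip ⟨hinj2, hsurj⟩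
  let b' : Basis (Fin 4) ℂ V' := b.dualBasis.map e.symm
  have hbb : ∀ i j, β (b i) (b' j) = if i = j then 1 else 0 := by
    intro i j
    have h1 : e (b' j) = b.dualBasis j := by
      change e (e.symm (b.dualBasis j)) = _
      rw [LinearEquiv.apply_symm_apply]
    have h2 : β (b i) (b' j) = e (b' j) (b i) := rfl
    rw [h2, h1, Basis.dualBasis_apply_self]
  have hSL : SL A B Φ := ⟨depA, add, smul⟩
  rcases le_total B.card A.card with hle | hle
  · exact main_ge β b b' hbb A B hAB Φ hSL inv hle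
  · have hSL' : SL B A (fun v : R → V' × V => Φ (fun r => (v r).swap)) := by
      constructor
      · intro v v' h1 h2
        exact depA _ _ (fun r hr => h2 r hr) (fun r hr => h1 r hr)
      · intro v r hr x y
        rw [swap_update, swap_update, swap_update]
        exact add (fun r' => (v r').swap) r (by rwa [Finset.union_comm]) x.swap y.swap
      · intro v r hr c x
        rw [swap_update, swap_update]
        exact smul (fun r' => (v r').swap) r (by rwa [Finset.union_comm]) c x.swap
    have hbb' : ∀ i j, β.flip (b' i) (b j) = if i = j then 1 else 0 := by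
      intro i j
      rw [LinearMap.flip_apply, hbb]
      by_cases hij : i = j
      · rw [if_pos hij, if_pos hij.symm]
      · rw [if_neg hij, if_neg (Ne.symm hij)]
    have hmain := main_ge β.flip b' b hbb' B A hAB.symm _ hSL' (by
      intro X X' htr hadj v
      have hadj' : ∀ u v, β (X' u) v + β u (X v) = 0 := by
        intro u v
        have := hadj v u
        rw [LinearMap.flip_apply, LinearMap.flip_apply] at this
        rw [add_comm]
        exact this
      have htr' : LinearMap.trace ℂ V X' = 0 := by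
        rw [trace_adj β b b' hbb X' X hadj', htr, neg_zero]
      have h1 := inv X' X htr' hadj' (fun r => (v r).swap)
      rw [Finset.union_comm]
      refine Eq.trans (Finset.sum_congr rfl fun r _ => ?_) h1
      rw [swap_update]
      rfl) hle
    have h2 := spn_swap β (B ∪ A) _ hmain
    rw [Finset.union_comm] at h2
    exact h2

end Pool.Agent.Helper7
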