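import Pool.Agent.Helper71.W4.FFTgl

/-!
First fundamental theorem for sl(4) in coordinates.
-/

set_option autoImplicit false

universe u v

namespace Pool.Agent.Helper7

namespace FFTsl

/-- the alternating symbol, integral version -/
def epsZ (u : Fin 4 → Fin 4) : ℤ :=
  Matrix.det (Matrix.of fun i j : Fin 4 => if u j = i then (1 : ℤ) else 0)

/-- the alternating symbol -/
noncomputable def eps (u : Fin 4 → Fin 4) : ℂ := ((epsZ u : ℤ) : ℂ)

theorem eps_eq_det (u : Fin 4 → Fin 4) :
    eps u = Matrix.det (Matrix.of fun i j : Fin 4 => if u j = i then (1 : ℂ) else 0) := by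
  unfold eps epsZ
  rw [Int.cast_det]
  congr 1
  ext i j
  simp [apply_ite]

theorem eps_swap (u : Fin 4 → Fin 4) (a b : Fin 4) (hab : a ≠ b) :
    eps (u ∘ Equiv.swap a b) = - eps u := by
  rw [eps_eq_det, eps_eq_det]
  have h := Matrix.det_permute' (Equiv.swap a b)
    (Matrix.of fun i j : Fin 4 => if u j = i then (1 : ℂ) else 0)
  rw [Equiv.Perm.sign_swap hab] at h
  have h2 : ((Matrix.of fun i j : Fin 4 => if u j = i then (1 : ℂ) else 0).submatrix id
      (Equiv.swap a b)) =
      Matrix.of fun i j : Fin 4 => if (u ∘ Equiv.swap a b) j = i then (1 : ℂ) else 0 := by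
    ext i j
    rfl
  rw [h2] at h
  rw [h]
  simp

theorem eps_inj (u : Fin 4 → Fin 4) (h : eps u ≠ 0) : Function.Injective u := by
  intro a b hab
  by_contra hne
  apply h
  rw [eps_eq_det]
  apply Matrix.det_zero_of_column_eq hne
  intro i
  simp only [Matrix.of_apply, hab]

theorem eps_sum_ne : ∑ u : Fin 4 → Fin 4, eps u * eps u ≠ 0 := by
  have h1 : ∑ u : Fin 4 → Fin 4, eps u * eps u =
      ((∑ u : Fin 4 → Fin 4, epsZ u * epsZ u : ℤ) : ℂ) := by
    rw [Int.cast_sum]
    exact Finset.sum_congr rfl fun u _ => by unfold eps; push_cast; rfl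
  rw [h1]
  have h2 : 0 < ∑ u : Fin 4 → Fin 4, epsZ u * epsZ u := by
    refine Finset.sum_pos' (fun u _ => mul_self_nonneg _) ⟨id, Finset.mem_univ _, ?_⟩
    have h3 : epsZ id = 1 := by
      unfold epsZ
      have : (Matrix.of fun i j : Fin 4 => if id j = i then (1 : ℤ) else 0) = 1 := by
        ext i j
        rw [Matrix.of_apply, Matrix.one_apply]
        simp only [id, eq_comm]
      rw [this, Matrix.det_one]
    rw [h3]
    norm_num
  exact_mod_cast h2.ne'

theorem eps_inv (i j : Fin 4) (hij : i ≠ j) (u : Fin 4 → Fin 4) :
    ∑ r, (if u r = i then eps (Function.update u r j) else 0) = 0 := by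
  by_cases hex : ∃ r0, u r0 = i ∧ eps (Function.update u r0 j) ≠ 0
  · obtain ⟨r0, hr0, hne⟩ := hex
    have hinj := eps_inj _ hne
    have hsurj : Function.Surjective (Function.update u r0 j) :=
      Finite.surjective_of_injective hinj
    obtain ⟨r1, hr1⟩ := hsurj i
    have h10 : r1 ≠ r0 := by
      rintro rfl
      rw [Function.update_self] at hr1
      exact hij hr1.symm
    have hu1 : u r1 = i := by
      rw [Function.update_of_ne h10] at hr1
      exact hr1
    rw [← Finset.add_sum_erase _ _ (Finset.mem_univ r0),
      ← Finset.add_sum_erase _ _ (Finset.mem_erase.2 ⟨h10, Finset.mem_univ r1⟩),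
      Finset.sum_eq_zero, if_pos hr0, if_pos hu1, add_zero]
    · have h2 : Function.update u r1 j = Function.update u r0 j ∘ Equiv.swap r0 r1 := by
        funext r
        rw [Function.comp_apply]
        by_cases h0 : r = r0
        · subst h0
          rw [Equiv.swap_apply_left, Function.update_of_ne h10.symm, Function.update_of_ne h10,
            hr0, hu1]
        · by_cases h1 : r = r1
          · subst h1
            rw [Equiv.swap_apply_right, Function.update_self, Function.update_self]
          · rw [Equiv.swap_apply_of_ne_of_ne h0 h1, Function.update_of_ne h1,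
              Function.update_of_ne h0]
      rw [h2, eps_swap _ _ _ h10.symm, add_neg_cancel]
    · intro r hr
      rw [Finset.mem_erase, Finset.mem_erase] at hr
      rw [if_neg]
      intro hri
      have h3 : Function.update u r0 j r = Function.update u r0 j r1 := by
        rw [hr1, Function.update_of_ne hr.2.1, hri]
      exact hr.1 (hinj h3)
  · push Not at hex
    refine Finset.sum_eq_zero fun r _ => ?_
    by_cases hr : u r = i
    · rw [if_pos hr, hex r hr]
    · rw [if_neg hr]

/-- invariance in coordinates -/
structure Inv {α : Type u} {κ : Type v} [Fintype α] [Fintype κ] [DecidableEq α] [DecidableEq κ]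
    (δ : ℕ) (G : (α → Fin 4) → (κ → Fin 4) → ℂ) : Prop where
  off : ∀ i j, i ≠ j → ∀ s t,
    ∑ r, (if s r = j then G (Function.update s r i) t else 0) =
      ∑ r, (if t r = i then G s (Function.update t r j) else 0)
  wt : ∀ s t, G s t ≠ 0 → ∀ i, (Finset.univ.filter fun r => s r = i).card =
    (Finset.univ.filter fun r => t r = i).card + δ

/-- products in coordinates -/
noncomputable def Psi {α : Type u} {κ : Type v} [Fintype κ] {δ : ℕ}
    (σ : α ≃ κ ⊕ (Fin δ × Fin 4)) (s : α → Fin 4) (t : κ → Fin 4) : ℂ :=
  (∏ k, if s (σ.symm (Sum.inl k)) = t k then 1 else 0) *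
    ∏ l, eps (fun j => s (σ.symm (Sum.inr (l, j))))

theorem core_zero {α : Type u} {κ : Type v} [Fintype α] [Fintype κ] [DecidableEq α]
    [DecidableEq κ] (G : (α → Fin 4) → (κ → Fin 4) → ℂ) (hG : Inv 0 G)
    (hc : Fintype.card α = Fintype.card κ) :
    G ∈ Submodule.span ℂ (Set.range (Psi (α := α) (κ := κ) (δ := 0))) := by
  let e : α ≃ Fin (Fintype.card α) := Fintype.equivFin α
  let f : κ ≃ Fin (Fintype.card α) := (Fintype.equivFin κ).trans (finCongr hc.symm)
  have hfull : ∀ i j s t, ∑ r, (if s r = j then G (Function.update s r i) t else 0) =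
      ∑ r, (if t r = i then G s (Function.update t r j) else 0) := by
    intro i j s t
    by_cases hij : i = j
    · subst hij
      have h1 : ∑ r, (if s r = i then G (Function.update s r i) t else 0) =
          ((Finset.univ.filter fun r => s r = i).card : ℂ) * G s t := by
        rw [← nsmul_eq_mul, ← Finset.sum_const, Finset.sum_filter]
        refine Finset.sum_congr rfl fun r _ => ?_
        by_cases hr : s r = i
        · rw [if_pos hr, if_pos hr]
          congr 1
          rw [← hr, Function.update_eq_self]
        · rw [if_neg hr, if_neg hr]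
      have h2 : ∑ r, (if t r = i then G s (Function.update t r i) else 0) =
          ((Finset.univ.filter fun r => t r = i).card : ℂ) * G s t := by
        rw [← nsmul_eq_mul, ← Finset.sum_const, Finset.sum_filter]
        refine Finset.sum_congr rfl fun r _ => ?_
        by_cases hr : t r = i
        · rw [if_pos hr, if_pos hr]
          congr 1
          rw [← hr, Function.update_eq_self]
        · rw [if_neg hr, if_neg hr]
      rw [h1, h2]
      by_cases h0 : G s t = 0
      · rw [h0, mul_zero, mul_zero]
      · rw [hG.wt s t h0 i, add_zero]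
    · exact hG.off i j hij s t
  obtain ⟨c, hc'⟩ := fft_gl (m := Fintype.card α) (d := 4) (fun s t => G (s ∘ e) (t ∘ f)) (by
    intro i j s t
    have h1 := hfull i j (s ∘ e) (t ∘ f)
    rw [← e.symm.sum_comp, ← f.symm.sum_comp] at h1
    simp only [Function.comp_apply, Equiv.apply_symm_apply] at h1
    simp only [Function.update_comp_equiv]
    exact h1)
  have hG2 : G = ∑ π : Equiv.Perm (Fin (Fintype.card α)), c π •
      Psi (δ := 0) ((e.trans (π.trans f.symm)).trans
        (Equiv.sumEmpty κ (Fin 0 × Fin 4)).symm) := by
    funext s t
    have h1 := hc' (s ∘ e.symm) (t ∘ f.symm)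
    have h2 : (s ∘ e.symm) ∘ e = s := by
      funext r
      simp
    have h3 : (t ∘ f.symm) ∘ f = t := by
      funext r
      simp
    beta_reduce at h1
    rw [h2, h3] at h1
    rw [h1, Finset.sum_apply, Finset.sum_apply]
    refine Finset.sum_congr rfl fun π _ => ?_
    rw [Pi.smul_apply, Pi.smul_apply, smul_eq_mul]
    congr 1
    unfold Psi
    rw [Finset.univ_eq_empty (α := Fin 0), Finset.prod_empty, mul_one]
    refine (Fintype.prod_equiv (f.trans π.symm) _ _ fun k => ?_).symm
    simp only [Equiv.symm_trans_apply, Equiv.symm_symm, Equiv.sumEmpty_apply_inl,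
      Equiv.trans_apply, Function.comp_apply, Equiv.apply_symm_apply, Equiv.symm_apply_apply]
    congr
  rw [hG2]
  exact Submodule.sum_mem _ fun π _ => Submodule.smul_mem _ _
    (Submodule.subset_span ⟨_, rfl⟩)

/-- bookkeeping -/
def shuffle (κ : Type v) (δ : ℕ) :
    κ ⊕ (Fin (δ + 1) × Fin 4) ≃ (κ ⊕ Fin 4) ⊕ (Fin δ × Fin 4) where
  toFun := Sum.elim (fun k => Sum.inl (Sum.inl k))
    (fun p => Fin.cases (Sum.inl (Sum.inr p.2)) (fun l => Sum.inr (l, p.2)) p.1)
  invFun := Sum.elim (Sum.elim Sum.inl (fun j => Sum.inr (0, j)))
    (fun p => Sum.inr (p.1.succ, p.2))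
  left_inv := by
    rintro (k | ⟨l, j⟩)
    · rfl
    · refine Fin.cases ?_ (fun l => ?_) l
      · rfl
      · rfl
  right_inv := by
    rintro ((k | j) | ⟨l, j⟩)
    · rfl
    · rfl
    · rfl

theorem core : ∀ (δ : ℕ) {α : Type u} {κ : Type v} [Fintype α] [Fintype κ] [DecidableEq α]
    [DecidableEq κ] (G : (α → Fin 4) → (κ → Fin 4) → ℂ), Inv δ G →
    Fintype.card α = Fintype.card κ + 4 * δ →
    G ∈ Submodule.span ℂ (Set.range (Psi (α := α) (κ := κ) (δ := δ))) := by
  intro δ
  induction δ with
  | zero =>
    intro α κ _ _ _ _ G hG hc
    exact core_zero G hG (by rw [hc, mul_zero, add_zero])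
  | succ δ ih =>
    intro α κ _ _ _ _ G hG hc
    let F : (α → Fin 4) → (κ ⊕ Fin 4 → Fin 4) → ℂ := fun s t =>
      G s (fun k => t (Sum.inl k)) * eps (fun j => t (Sum.inr j))
    have hF : Inv δ F := by
      constructor
      · intro i j hij s t
        have h1 : ∑ r, (if s r = j then F (Function.update s r i) t else 0) =
            (∑ r, (if s r = j then G (Function.update s r i) (fun k => t (Sum.inl k)) else 0)) *
              eps (fun j => t (Sum.inr j)) := by
          rw [Finset.sum_mul]
          refine Finset.sum_congr rfl fun r _ => ?_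
          by_cases hr : s r = j
          · rw [if_pos hr, if_pos hr]
          · rw [if_neg hr, if_neg hr, zero_mul]
        have h2 : ∑ r, (if t r = i then F s (Function.update t r j) else 0) =
            (∑ r, (if t (Sum.inl r) = i then
              G s (Function.update (fun k => t (Sum.inl k)) r j) else 0)) *
              eps (fun j => t (Sum.inr j)) +
            G s (fun k => t (Sum.inl k)) * ∑ r, (if t (Sum.inr r) = i then
              eps (Function.update (fun k => t (Sum.inr k)) r j) else 0) := by
          rw [Fintype.sum_sum_type, Finset.sum_mul, Finset.mul_sum]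
          congr 1
          · refine Finset.sum_congr rfl fun r _ => ?_
            by_cases hr : t (Sum.inl r) = i
            · rw [if_pos hr, if_pos hr]
              change G s (fun k => Function.update t (Sum.inl r) j (Sum.inl k)) *
                eps (fun k => Function.update t (Sum.inl r) j (Sum.inr k)) = _
              congr 2
              · funext k
                by_cases hk : k = r
                · subst hk
                  rw [Function.update_self, Function.update_self]
                · rw [Function.update_of_ne hk, Function.update_of_ne]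
                  exact fun h => hk (Sum.inl_injective h)
              
            · rw [if_neg hr, if_neg hr, zero_mul]
          · refine Finset.sum_congr rfl fun r _ => ?_
            by_cases hr : t (Sum.inr r) = i
            · rw [if_pos hr, if_pos hr]
              change G s (fun k => Function.update t (Sum.inr r) j (Sum.inl k)) *
                eps (fun k => Function.update t (Sum.inr r) j (Sum.inr k)) = _
              congr 2
              · funext k
                by_cases hk : k = r
                · subst hk
                  rw [Function.update_self, Function.update_self]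
                · rw [Function.update_of_ne hk, Function.update_of_ne]
                  exact fun h => hk (Sum.inr_injective h)
            · rw [if_neg hr, if_neg hr, mul_zero]
        rw [h1, h2, eps_inv i j hij, mul_zero, add_zero, hG.off i j hij]
      · intro s t hne i
        have h1 : G s (fun k => t (Sum.inl k)) ≠ 0 := left_ne_zero_of_mul hne
        have h2 : eps (fun j => t (Sum.inr j)) ≠ 0 := right_ne_zero_of_mul hne
        have h3 := hG.wt s _ h1 i
        have hinj := eps_inj _ h2
        have hsurj : Function.Surjective (fun j => t (Sum.inr j)) :=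
          Finite.surjective_of_injective hinj
        obtain ⟨j0, hj0⟩ := hsurj i
        have h4 : (Finset.univ.filter fun r : Fin 4 => t (Sum.inr r) = i) = {j0} := by
          ext r
          rw [Finset.mem_filter, Finset.mem_singleton]
          constructor
          · rintro ⟨_, hr⟩
            exact hinj (hr.trans hj0.symm)
          · rintro rfl
            exact ⟨Finset.mem_univ _, hj0⟩
        have h5 : (Finset.univ.filter fun r : κ ⊕ Fin 4 => t r = i).card =
            (Finset.univ.filter fun r : κ => t (Sum.inl r) = i).card +
            (Finset.univ.filter fun r : Fin 4 => t (Sum.inr r) = i).card := by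
          rw [Finset.card_filter, Finset.card_filter, Finset.card_filter, Fintype.sum_sum_type]
        rw [h5, h4, Finset.card_singleton, h3]
        omega
    have hcard : Fintype.card α = Fintype.card (κ ⊕ Fin 4) + 4 * δ := by
      rw [hc, Fintype.card_sum, Fintype.card_fin]
      ring
    have hspan := ih F hF hcard
    let L : ((α → Fin 4) → (κ ⊕ Fin 4 → Fin 4) → ℂ) →ₗ[ℂ] ((α → Fin 4) → (κ → Fin 4) → ℂ) :=
      { toFun := fun F s t => ∑ u : Fin 4 → Fin 4, eps u * F s (Sum.elim t u)
        map_add' := fun F F' => by
          funext s t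
          simp only [Pi.add_apply, mul_add, Finset.sum_add_distrib]
        map_smul' := fun c F => by
          funext s t
          simp only [Pi.smul_apply, smul_eq_mul, RingHom.id_apply, Finset.mul_sum]
          exact Finset.sum_congr rfl fun u _ => by ring }
    have hL : ∀ F s t, L F s t = ∑ u : Fin 4 → Fin 4, eps u * F s (Sum.elim t u) :=
      fun _ _ _ => rfl
    have hLF : L F = (∑ u : Fin 4 → Fin 4, eps u * eps u) • G := by
      funext s t
      rw [hL, Pi.smul_apply, Pi.smul_apply, smul_eq_mul, Finset.sum_mul]
      refine Finset.sum_congr rfl fun u _ => ?_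
      change eps u * (G s (fun k => Sum.elim t u (Sum.inl k)) *
        eps (fun j => Sum.elim t u (Sum.inr j))) = _
      simp only [Sum.elim_inl, Sum.elim_inr]
      ring
    have hmap : L F ∈ Submodule.span ℂ (Set.range (Psi (α := α) (κ := κ) (δ := δ + 1))) := by
      have h1 : L F ∈ (Submodule.span ℂ
          (Set.range (Psi (α := α) (κ := κ ⊕ Fin 4) (δ := δ)))).map L :=
        Submodule.mem_map_of_mem hspan
      rw [Submodule.map_span] at h1
      refine Submodule.span_mono ?_ h1
      rintro _ ⟨_, ⟨σ, rfl⟩, rfl⟩
      refine ⟨σ.trans (shuffle κ δ).symm, ?_⟩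
      funext s t
      rw [hL]
      unfold Psi
      rw [Fin.prod_univ_succ, Finset.sum_eq_single
        (fun j => s (σ.symm (Sum.inl (Sum.inr j))))]
      · rw [Fintype.prod_sum_type]
        simp only [Sum.elim_inl, Sum.elim_inr, if_true, Finset.prod_const_one, mul_one]
        change (∏ k, if s (σ.symm (Sum.inl (Sum.inl k))) = t k then 1 else 0) *
          (eps (fun j => s (σ.symm (Sum.inl (Sum.inr j)))) *
            ∏ l : Fin δ, eps (fun j => s (σ.symm (Sum.inr (l, j))))) = _
        ring
      · intro u _ hu
        obtain ⟨j, hj⟩ : ∃ j, s (σ.symm (Sum.inl (Sum.inr j))) ≠ u j := by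
          by_contra hcon
          push Not at hcon
          exact hu (funext hcon).symm
        rw [Fintype.prod_sum_type, Finset.prod_eq_zero (i := j)
          (s := (Finset.univ : Finset (Fin 4))) (Finset.mem_univ j) (by
            rw [Sum.elim_inr, if_neg hj])]
        ring
      · intro h
        exact absurd (Finset.mem_univ _) h
    rw [hLF] at hmap
    exact (Submodule.smul_mem_iff _ eps_sum_ne).1 hmap

end FFTsl

end Pool.Agent.Helper7
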