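import Pool.Agent.Helper7.W4.Defs
import Pool.Agent.Helper71.W4.FFTslCore

/-!
First fundamental theorem for sl(4) in slots: slot functions, frames, products.
-/

set_option autoImplicit false
set_option linter.unusedSectionVars false

namespace Pool.Agent.Helper7

namespace FFTsl

open Module

section pq

variable {R W : Type*} [DecidableEq R] [AddCommGroup W] [Module ℂ W]
  {𝓑 : Set (W →ₗ[ℂ] W →ₗ[ℂ] ℂ)} {𝓓 : Set (MultilinearMap ℂ (fun _ : Fin 4 => W) ℂ)}

theorem pq_dep {T : Finset R} {Φ : (R → W) → ℂ} (h : PQ 𝓑 𝓓 T Φ) :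
    ∀ v v', (∀ r ∈ T, v r = v' r) → Φ v = Φ v' := by
  induction h with
  | nil => exact fun _ _ _ => rfl
  | pair r r' β _ _ _ _ _ ih =>
    intro v v' hv
    beta_reduce
    rw [ih v v' (fun x hx => hv x (Finset.mem_insert_of_mem (Finset.mem_insert_of_mem hx))),
      hv r (Finset.mem_insert_self _ _),
      hv r' (Finset.mem_insert_of_mem (Finset.mem_insert_self _ _))]
  | quad e D _ _ _ _ ih =>
    intro v v' hv
    beta_reduce
    rw [ih v v' (fun x hx => hv x (Finset.mem_union_right _ hx))]
    have h1 : (fun j => v (e j)) = fun j => v' (e j) := by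
      funext j
      exact hv _ (Finset.mem_union_left _ (Finset.mem_image_of_mem _ (Finset.mem_univ j)))
    rw [h1]

theorem pq_update {T : Finset R} {Φ : (R → W) → ℂ} (h : PQ 𝓑 𝓓 T Φ) (v : R → W) (r : R)
    (hr : r ∉ T) (x : W) : Φ (Function.update v r x) = Φ v := by
  refine pq_dep h _ _ fun s hs => ?_
  rw [Function.update_of_ne]
  rintro rfl
  exact hr hs

theorem pq_lin {T : Finset R} {Φ : (R → W) → ℂ} (h : PQ 𝓑 𝓓 T Φ) :
    ∀ v, ∀ r ∈ T, ∃ f : W →ₗ[ℂ] ℂ, ∀ x, Φ (Function.update v r x) = f x := by
  induction h with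
  | nil =>
    intro v r hr
    exact absurd hr (Finset.notMem_empty _)
  | @pair T Φ r r' β _ hΦ hr hr' hne ih =>
    intro v r0 hr0
    rw [Finset.mem_insert, Finset.mem_insert] at hr0
    rcases hr0 with rfl | rfl | hr0
    · refine ⟨(Φ v) • β.flip (v r'), fun x => ?_⟩
      beta_reduce
      rw [Function.update_self, Function.update_of_ne hne.symm, pq_update hΦ v _ hr]
      simp only [LinearMap.smul_apply, LinearMap.flip_apply, smul_eq_mul]
      ring
    · refine ⟨(Φ v) • β (v r), fun x => ?_⟩
      beta_reduce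
      rw [Function.update_self, Function.update_of_ne hne, pq_update hΦ v _ hr']
      simp only [LinearMap.smul_apply, smul_eq_mul]
      ring
    · obtain ⟨f, hf⟩ := ih v r0 hr0
      refine ⟨(β (v r) (v r')) • f, fun x => ?_⟩
      beta_reduce
      rw [Function.update_of_ne, Function.update_of_ne, hf]
      · rfl
      · rintro rfl
        exact hr' hr0
      · rintro rfl
        exact hr hr0
  | @quad T Φ e D _ hΦ he hT ih =>
    intro v r0 hr0
    rw [Finset.mem_union, Finset.mem_image] at hr0
    rcases hr0 with ⟨j, _, rfl⟩ | hr0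
    · refine ⟨(Φ v) • D.toLinearMap (fun j => v (e j)) j, fun x => ?_⟩
      beta_reduce
      rw [pq_update hΦ v _ (hT j)]
      have h1 : (fun j' => Function.update v (e j) x (e j')) =
          Function.update (fun j' => v (e j')) j x := by
        funext j'
        by_cases hj : j' = j
        · subst hj
          rw [Function.update_self, Function.update_self]
        · rw [Function.update_of_ne hj, Function.update_of_ne (fun h => hj (he h))]
      rw [h1]
      simp only [LinearMap.smul_apply, MultilinearMap.toLinearMap_apply, smul_eq_mul]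
      ring
    · obtain ⟨f, hf⟩ := ih v r0 hr0
      refine ⟨(D (fun j => v (e j))) • f, fun x => ?_⟩
      beta_reduce
      have h1 : (fun j => Function.update v r0 x (e j)) = fun j => v (e j) := by
        funext j
        rw [Function.update_of_ne]
        rintro rfl
        exact hT j hr0
      rw [hf, h1]
      rfl

end pq

variable {R : Type*} [DecidableEq R] {V V' : Type*} [AddCommGroup V] [Module ℂ V]
  [AddCommGroup V'] [Module ℂ V']

/-- slot functions with slots of two types -/
structure SL (A B : Finset R) (Φ : (R → V × V') → ℂ) : Prop where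
  dep : ∀ v v', (∀ r ∈ A, (v r).1 = (v' r).1) → (∀ r ∈ B, (v r).2 = (v' r).2) → Φ v = Φ v'
  add : ∀ v, ∀ r ∈ A ∪ B, ∀ x y, Φ (Function.update v r (x + y)) =
    Φ (Function.update v r x) + Φ (Function.update v r y)
  smul : ∀ v, ∀ r ∈ A ∪ B, ∀ (c : ℂ) x, Φ (Function.update v r (c • x)) =
    c * Φ (Function.update v r x)

theorem SL.upd_zero {A B : Finset R} {Φ : (R → V × V') → ℂ} (h : SL A B Φ) (v : R → V × V')
    (r : R) (hr : r ∈ A ∪ B) : Φ (Function.update v r 0) = 0 := by
  have h1 := h.smul v r hr 0 0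
  rw [zero_smul, zero_mul] at h1
  exact h1

theorem SL.zeroA {A B : Finset R} (hAB : Disjoint A B) {Φ : (R → V × V') → ℂ} (h : SL A B Φ)
    (v : R → V × V') (r : R) (hr : r ∈ A) (hv : (v r).1 = 0) : Φ v = 0 := by
  rw [← h.upd_zero v r (Finset.mem_union_left _ hr)]
  refine h.dep _ _ (fun s _ => ?_) (fun s hs => ?_)
  · by_cases hsr : s = r
    · subst hsr
      rw [Function.update_self, hv]
      rfl
    · rw [Function.update_of_ne hsr]
  · rw [Function.update_of_ne]
    rintro rfl
    exact Finset.disjoint_left.1 hAB hr hs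

theorem SL.zeroB {A B : Finset R} (hAB : Disjoint A B) {Φ : (R → V × V') → ℂ} (h : SL A B Φ)
    (v : R → V × V') (r : R) (hr : r ∈ B) (hv : (v r).2 = 0) : Φ v = 0 := by
  rw [← h.upd_zero v r (Finset.mem_union_right _ hr)]
  refine h.dep _ _ (fun s hs => ?_) (fun s _ => ?_)
  · rw [Function.update_of_ne]
    rintro rfl
    exact Finset.disjoint_left.1 hAB hs hr
  · by_cases hsr : s = r
    · subst hsr
      rw [Function.update_self, hv]
      rfl
    · rw [Function.update_of_ne hsr]

/-- vectors all of whose slots are basis vectors -/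
noncomputable def frame (A B : Finset R) (b : Fin 4 → V) (b' : Fin 4 → V')
    (s : {r // r ∈ A} → Fin 4) (t : {r // r ∈ B} → Fin 4) : R → V × V' := fun r =>
  if h : r ∈ A then (b (s ⟨r, h⟩), 0) else if h' : r ∈ B then (0, b' (t ⟨r, h'⟩)) else 0

theorem frame_A (A B : Finset R) (b : Fin 4 → V) (b' : Fin 4 → V')
    (s : {r // r ∈ A} → Fin 4) (t : {r // r ∈ B} → Fin 4) (r : R) (h : r ∈ A) :
    frame A B b b' s t r = (b (s ⟨r, h⟩), 0) := by
  unfold frame
  rw [dif_pos h]

theorem frame_B (A B : Finset R) (hAB : Disjoint A B) (b : Fin 4 → V) (b' : Fin 4 → V')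
    (s : {r // r ∈ A} → Fin 4) (t : {r // r ∈ B} → Fin 4) (r : R) (h : r ∈ B) :
    frame A B b b' s t r = (0, b' (t ⟨r, h⟩)) := by
  unfold frame
  rw [dif_neg (fun h' => Finset.disjoint_left.1 hAB h' h), dif_pos h]

theorem update_frame_A (A B : Finset R) (b : Fin 4 → V) (b' : Fin 4 → V')
    (s : {r // r ∈ A} → Fin 4) (t : {r // r ∈ B} → Fin 4) (r : {r // r ∈ A}) (i : Fin 4) :
    Function.update (frame A B b b' s t) r.1 (b i, 0) =
      frame A B b b' (Function.update s r i) t := by
  funext r'
  by_cases hr : r' = r.1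
  · subst hr
    rw [Function.update_self, frame_A A B b b' _ _ r.1 r.2, Function.update_self]
  · rw [Function.update_of_ne hr]
    unfold frame
    by_cases h1 : r' ∈ A
    · rw [dif_pos h1, dif_pos h1, Function.update_of_ne]
      intro h
      exact hr (congrArg Subtype.val h)
    · rw [dif_neg h1, dif_neg h1]

theorem update_frame_B (A B : Finset R) (hAB : Disjoint A B) (b : Fin 4 → V) (b' : Fin 4 → V')
    (s : {r // r ∈ A} → Fin 4) (t : {r // r ∈ B} → Fin 4) (r : {r // r ∈ B}) (i : Fin 4) :
    Function.update (frame A B b b' s t) r.1 (0, b' i) =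
      frame A B b b' s (Function.update t r i) := by
  funext r'
  by_cases hr : r' = r.1
  · subst hr
    rw [Function.update_self, frame_B A B hAB b b' _ _ r.1 r.2, Function.update_self]
  · rw [Function.update_of_ne hr]
    unfold frame
    by_cases h1 : r' ∈ A
    · rw [dif_pos h1, dif_pos h1]
    · rw [dif_neg h1, dif_neg h1]
      by_cases h2 : r' ∈ B
      · rw [dif_pos h2, dif_pos h2, Function.update_of_ne]
        intro h
        exact hr (congrArg Subtype.val h)
      · rw [dif_neg h2, dif_neg h2]

/-- extension of a family indexed by the slots -/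
noncomputable def extd (T : Finset R) {W : Type*} [Zero W] (w : {r // r ∈ T} → W) : R → W :=
  fun r => if h : r ∈ T then w ⟨r, h⟩ else 0

theorem extd_update (T : Finset R) {W : Type*} [Zero W] [DecidableEq {r // r ∈ T}]
    (w : {r // r ∈ T} → W) (i : {r // r ∈ T}) (x : W) :
    extd T (Function.update w i x) = Function.update (extd T w) i.1 x := by
  funext r
  unfold extd
  by_cases hr : r = i.1
  · subst hr
    rw [dif_pos i.2, Function.update_self, Function.update_self]
  · rw [Function.update_of_ne hr]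
    by_cases h : r ∈ T
    · rw [dif_pos h, dif_pos h, Function.update_of_ne]
      intro h'
      exact hr (congrArg Subtype.val h')
    · rw [dif_neg h, dif_neg h]

/-- the multilinear map of a slot function -/
noncomputable def SL.toM {A B : Finset R} {Φ : (R → V × V') → ℂ} (h : SL A B Φ) :
    MultilinearMap ℂ (fun _ : {r // r ∈ A ∪ B} => V × V') ℂ where
  toFun w := Φ (extd (A ∪ B) w)
  map_update_add' w i x y := by
    rw [extd_update, extd_update, extd_update]
    exact h.add _ _ i.2 _ _
  map_update_smul' w i c x := by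
    rw [extd_update, extd_update]
    exact h.smul _ _ i.2 _ _

theorem SL.ext {A B : Finset R} (hAB : Disjoint A B) {Φ Φ' : (R → V × V') → ℂ} (h : SL A B Φ)
    (h' : SL A B Φ') (b : Basis (Fin 4) ℂ V) (b' : Basis (Fin 4) ℂ V')
    (hf : ∀ s t, Φ (frame A B b b' s t) = Φ' (frame A B b b' s t)) : Φ = Φ' := by
  have hM : h.toM = h'.toM := by
    apply Basis.ext_multilinear (fun _ => b.prod b')
    intro c
    change Φ (extd (A ∪ B) fun i => (b.prod b') (c i)) =
      Φ' (extd (A ∪ B) fun i => (b.prod b') (c i))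
    have hval : ∀ r (hr : r ∈ A ∪ B), extd (A ∪ B) (fun i => (b.prod b') (c i)) r =
        (b.prod b') (c ⟨r, hr⟩) := by
      intro r hr
      unfold extd
      rw [dif_pos hr]
    by_cases h1 : ∃ (r : R) (hr : r ∈ A) (i : Fin 4), c ⟨r, Finset.mem_union_left _ hr⟩ =
        Sum.inr i
    · obtain ⟨r, hr, i, hi⟩ := h1
      have h2 : (extd (A ∪ B) (fun i => (b.prod b') (c i)) r).1 = 0 := by
        rw [hval r (Finset.mem_union_left _ hr), hi, Basis.prod_apply_inr_fst]
      rw [h.zeroA hAB _ r hr h2, h'.zeroA hAB _ r hr h2]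
    · by_cases h3 : ∃ (r : R) (hr : r ∈ B) (i : Fin 4), c ⟨r, Finset.mem_union_right _ hr⟩ =
        Sum.inl i
      · obtain ⟨r, hr, i, hi⟩ := h3
        have h2 : (extd (A ∪ B) (fun i => (b.prod b') (c i)) r).2 = 0 := by
          rw [hval r (Finset.mem_union_right _ hr), hi, Basis.prod_apply_inl_snd]
        rw [h.zeroB hAB _ r hr h2, h'.zeroB hAB _ r hr h2]
      · push Not at h1 h3
        have h4 : ∀ r : {r // r ∈ A}, ∃ i, c ⟨r.1, Finset.mem_union_left _ r.2⟩ = Sum.inl i := by
          intro r
          rcases hc : c ⟨r.1, Finset.mem_union_left _ r.2⟩ with i | i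
          · exact ⟨i, rfl⟩
          · exact absurd hc (h1 r.1 r.2 i)
        have h5 : ∀ r : {r // r ∈ B}, ∃ i, c ⟨r.1, Finset.mem_union_right _ r.2⟩ = Sum.inr i := by
          intro r
          rcases hc : c ⟨r.1, Finset.mem_union_right _ r.2⟩ with i | i
          · exact absurd hc (h3 r.1 r.2 i)
          · exact ⟨i, rfl⟩
        choose s hs using h4
        choose t ht using h5
        have h6 : ∀ r ∈ A, (extd (A ∪ B) (fun i => (b.prod b') (c i)) r).1 =
            (frame A B b b' s t r).1 := by
          intro r hr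
          rw [hval r (Finset.mem_union_left _ hr), hs ⟨r, hr⟩, Basis.prod_apply_inl_fst,
            frame_A A B b b' s t r hr]
        have h7 : ∀ r ∈ B, (extd (A ∪ B) (fun i => (b.prod b') (c i)) r).2 =
            (frame A B b b' s t r).2 := by
          intro r hr
          rw [hval r (Finset.mem_union_right _ hr), ht ⟨r, hr⟩, Basis.prod_apply_inr_snd,
            frame_B A B hAB b b' s t r hr]
        rw [h.dep _ _ h6 h7, h'.dep _ _ h6 h7, hf]
  funext v
  have h8 : ∀ r (_ : r ∈ A ∪ B), extd (A ∪ B) (fun i => v i.1) r = v r := by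
    intro r hr
    unfold extd
    rw [dif_pos hr]
  have h9 : Φ v = h.toM (fun i => v i.1) := by
    refine h.dep _ _ (fun r hr => ?_) (fun r hr => ?_)
    · rw [h8 r (Finset.mem_union_left _ hr)]
    · rw [h8 r (Finset.mem_union_right _ hr)]
  have h10 : Φ' v = h'.toM (fun i => v i.1) := by
    refine h'.dep _ _ (fun r hr => ?_) (fun r hr => ?_)
    · rw [h8 r (Finset.mem_union_left _ hr)]
    · rw [h8 r (Finset.mem_union_right _ hr)]
  rw [h9, h10, hM]

end FFTsl

end Pool.Agent.Helper7
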